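import Mathlib
import Pool.Agent.H27.W.Zn
import Pool.Agent.H2.W.TieE
import Pool.Agent.H40.Sp.CnrG

set_option autoImplicit false
open Finset

/-! # `CnrW` and `CnrN` for the environment `XA` at a marked corner

`LQ` : the labels of `P^p` near the corner at distance less than `h` of one of the two walls, `R1`, `R2` : ring
labels in front of the walls. `LamQ` : the layers. `TnQ` : the ties near the corner. -/

namespace Pool.Agent.H27.W.N

open Pool.Agent.H75.Perc Pool.Agent.H75.TwoArm Pool.Agent.Q1 Pool.Agent.H33.Q1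
open Pool.Agent.H69.Q1
open Pool.Agent.H54.W (Win)
open Pool.Agent.H54.W.Win
open Pool.Agent.H72.W.N
open Pool.Agent.H40.W.N
open Pool.Agent.H42.Sp (Sd Ix kt rt kt_odd rt_even kt_Tg rt_Tg)
open Pool.Agent.H13.R45 (ev gp ev_true ev_false Tg gp_inj)
open Pool.Agent.H74.R45 (exists_lt)
open Pool.Agent.H54.R45 (nd_gp node_exists el_adj adj_unit)
open Pool.Agent.H39.Q1 (nd el cU cV cx cy VN av nd_el TF mem_TF el_true el_false)
open Pool.Agent.H40.Sp (CnrW CnrN NB Cht)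
open Pool.Agent.H40.Sp (tX pX oT oP oT_tX tX_oT oP_pX pX_oP chQ chQ_UV chQ_lt chQ_gp eS flS yV yH)

section Defs

variable (v1 v2 w : Bool) (gx gy h M : ℤ)

/-- labels of `P^p` near the corner -/
noncomputable def LQ : Finset (ℤ × ℤ) :=
  (((Ico 0 M) ×ˢ (Ico 0 M)).filter fun q => q.1 < h ∨ q.2 < h).image
    fun q => lt (tq v1 v2 w gx gy q.1 q.2)

/-- ring labels in front of the wall `U = 0` -/
noncomputable def R1 : Finset (ℤ × ℤ) := (Ico 0 M).image fun j => lt (tq v1 v2 w gx gy (-1) j)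

/-- ring labels in front of the wall `V = 0` -/
noncomputable def R2 : Finset (ℤ × ℤ) := (Ico 0 M).image fun i => lt (tq v1 v2 w gx gy i (-1))

/-- the wide layers of the corner -/
noncomputable def LamQ (D : Win) (p : Bool) (s0 iL iF : ℤ) (i : ℤ) : Finset (ℤ × ℤ) :=
  if i = iL then LaA D p s0 h i ∪ (LQ v1 v2 w gx gy h M ∪ R2 v1 v2 w gx gy M)
  else if i = iF then LaA D p s0 h i ∪ (LQ v1 v2 w gx gy h M ∪ R1 v1 v2 w gx gy M)
  else LaA D p s0 h i

/-- the ties near the corner -/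
noncomputable def TnQ (D : Win) (p : Bool) (s0 : ℤ) : Finset (ℤ × ℤ) :=
  (TA D p).filter fun e =>
    (|(chQ v1 v2 w gx gy).U (nd (colp D (fmA D p s0 e)) (bA D p e))| ≤ 4 * h ∧
      |(chQ v1 v2 w gx gy).V (nd (colp D (fmA D p s0 e)) (bA D p e))| ≤ 4 * h)

end Defs

variable {D : Win} {p : Bool} {s0 : ℤ} {v1 v2 w : Bool} {gx gy iL iF N h M L i j a b : ℤ} {s : Sd}
  {c : Bool} {O : OutB D} {S B : Finset (ℤ × ℤ)} {l x y : ℤ × ℤ}


lemma ltT_inj {i' j' : ℤ} : lt ((tq v1 v2 w gx gy) i j) = lt ((tq v1 v2 w gx gy) i' j') ↔ i = i' ∧ j = j' := by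
  constructor
  · intro h
    exact tq_inj.1 (lt_inj h)
  · rintro ⟨rfl, rfl⟩; rfl

lemma mem_LQ : lt ((tq v1 v2 w gx gy) i j) ∈ LQ v1 v2 w gx gy h M ↔
    ((0 ≤ i ∧ i < M) ∧ 0 ≤ j ∧ j < M) ∧ (i < h ∨ j < h) := by
  unfold LQ
  simp only [mem_image, mem_filter, mem_product, mem_Ico, Prod.exists]
  constructor
  · rintro ⟨i', j', h1, h2⟩
    obtain ⟨rfl, rfl⟩ := ltT_inj.1 h2
    exact h1
  · intro h1
    exact ⟨i, j, h1, rfl⟩

lemma mem_R1 : lt ((tq v1 v2 w gx gy) i j) ∈ R1 v1 v2 w gx gy M ↔ i = -1 ∧ 0 ≤ j ∧ j < M := by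
  unfold R1
  simp only [mem_image, mem_Ico]
  constructor
  · rintro ⟨j', h1, h2⟩
    obtain ⟨rfl, rfl⟩ := ltT_inj.1 h2
    exact ⟨rfl, h1⟩
  · rintro ⟨rfl, h1⟩
    exact ⟨j, h1, rfl⟩

lemma mem_R2 : lt ((tq v1 v2 w gx gy) i j) ∈ R2 v1 v2 w gx gy M ↔ j = -1 ∧ 0 ≤ i ∧ i < M := by
  unfold R2
  simp only [mem_image, mem_Ico]
  constructor
  · rintro ⟨j', h1, h2⟩
    obtain ⟨rfl, rfl⟩ := ltT_inj.1 h2
    exact ⟨rfl, h1⟩
  · rintro ⟨rfl, h1⟩
    exact ⟨i, h1, rfl⟩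

lemma LQ_T (hl : l ∈ LQ v1 v2 w gx gy h M) : ∃ i j, l = lt ((tq v1 v2 w gx gy) i j) := by
  unfold LQ at hl
  simp only [mem_image, Prod.exists] at hl
  obtain ⟨i, j, -, h1⟩ := hl
  exact ⟨i, j, h1.symm⟩

lemma R1_T (hl : l ∈ R1 v1 v2 w gx gy M) : ∃ i j, l = lt ((tq v1 v2 w gx gy) i j) := by
  unfold R1 at hl
  simp only [mem_image] at hl
  obtain ⟨j, -, h1⟩ := hl
  exact ⟨-1, j, h1.symm⟩

lemma R2_T (hl : l ∈ R2 v1 v2 w gx gy M) : ∃ i j, l = lt ((tq v1 v2 w gx gy) i j) := by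
  unfold R2 at hl
  simp only [mem_image] at hl
  obtain ⟨i, -, h1⟩ := hl
  exact ⟨i, -1, h1.symm⟩

lemma odd_T (hl : (l.1 + l.2) % 2 = 1) (v1 v2 w : Bool) (gx gy : ℤ) :
    ∃ i j, l = lt (tq v1 v2 w gx gy i j) := by
  obtain ⟨x, y, rfl⟩ := Pool.Agent.H74.R45.exists_lt hl
  obtain ⟨i, j, e⟩ := tq_surj (v1 := v1) (v2 := v2) (w := w) (gx := gx) (gy := gy) (x, y)
  exact ⟨i, j, by rw [e]⟩

lemma odd_LaA (hl : l ∈ LaA D p s0 h i) : (l.1 + l.2) % 2 = 1 := odd_TB hl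

lemma LaA_in (hl : lt ((tq v1 v2 w gx gy) i j) ∈ LaA D p s0 h a) : InP D p ((tq v1 v2 w gx gy) i j).1 ((tq v1 v2 w gx gy) i j).2 := (mem_LaA.1 hl).1

/-- nodes -/
lemma node_q (c : Bool) (x : ℤ × ℤ) (v1 v2 w : Bool) (gx gy : ℤ) :
    ∃ a b, ev (gq v1 v2 w gx gy a b) = c ∧ gp (gq v1 v2 w gx gy a b) = x := by
  obtain ⟨g, h1, h2⟩ := node_exists c x
  obtain ⟨a, b, e⟩ := gq_surj (v1 := v1) (v2 := v2) (w := w) (gx := gx) (gy := gy) g
  exact ⟨a, b, by rw [e]; exact h1, by rw [e]; exact h2⟩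

/-- the labels at a node -/
lemma el_q (hg : ev ((gq v1 v2 w gx gy) a b) = c) (hu : IsUnit4 (y - gp ((gq v1 v2 w gx gy) a b))) :
    ∃ i j, el c (gp ((gq v1 v2 w gx gy) a b)) y = lt ((tq v1 v2 w gx gy) i j) ∧ (i = a ∨ i = a - 1) ∧ (j = b ∨ j = b - 1) := by
  obtain ⟨X, Y, h1, h2, h3⟩ := el_adj hg hu
  obtain ⟨i, j, e⟩ := tq_surj (v1 := v1) (v2 := v2) (w := w) (gx := gx) (gy := gy) (X, Y)
  refine ⟨i, j, by rw [h1, e], ?_⟩
  rw [← onT_q (v1 := v1) (v2 := v2) (w := w) (gx := gx) (gy := gy), e]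
  unfold OnT
  simp only
  omega

lemma unit_q (hg : ev ((gq v1 v2 w gx gy) a b) = c) (hi : i = a ∨ i = a - 1) (hj : j = b ∨ j = b - 1) :
    IsUnit4 (lt ((tq v1 v2 w gx gy) i j) - nd c (gp ((gq v1 v2 w gx gy) a b))) := by
  have h1 := (onT_q (v1 := v1) (v2 := v2) (w := w) (gx := gx) (gy := gy)).2 ⟨hi, hj⟩
  unfold OnT at h1
  exact adj_unit (X := ((tq v1 v2 w gx gy) i j).1) (Y := ((tq v1 v2 w gx gy) i j).2) hg (by omega) (by omega)

namespace Zn

variable (Z : Zn D p s0 v1 v2 w gx gy iL iF N)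
include Z

/-- nodes of the layers near the corner -/
lemma vnL (hh : 1 ≤ h) (hM : M = 2 * h + 2) (hN : 3 * h + 6 ≤ N)
    (hev : ev ((gq v1 v2 w gx gy) a b) = colp D iL) (hn : (-3 ≤ 2 * a ∧ 2 * a ≤ 2 * M + 2) ∧ -3 ≤ 2 * b ∧
      2 * b ≤ 2 * M + 2)
    (hv : VN (colp D iL) (LamQ v1 v2 w gx gy h M D p s0 iL iF iL) (TF (TA D p) (fmA D p s0) iL)
      (bA D p) (gp ((gq v1 v2 w gx gy) a b))) : 0 ≤ a ∧ -1 ≤ b := by
  rcases hv with ⟨e, he, h1⟩ | ⟨z, hz, h1⟩
  · obtain ⟨he1, he2⟩ := mem_TF.1 he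
    obtain ⟨u, v, s, c, rfl, ht⟩ := exists_tie he1
    obtain ⟨i, j, e⟩ := tq_surj (v1 := v1) (v2 := v2) (w := w) (gx := gx) (gy := gy) (u, v)
    have hc : c = colp D iL := by rw [← he2, ht.co]
    have hb := ht.b
    rw [h1] at hb
    have hev2 : ev (bt s c (u, v)) = c := ev_bt ht.odd
    have e2 : (gq v1 v2 w gx gy) a b = bt s c (u, v) := gp_inj (by rw [hev, hev2, hc]) hb
    have hon : OnT ((gq v1 v2 w gx gy) a b) ((tq v1 v2 w gx gy) i j).1 ((tq v1 v2 w gx gy) i j).2 := by rw [e2, e]; exact onT_bt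
    rw [onT_q] at hon
    have ht' : TieP D p s c ((tq v1 v2 w gx gy) i j).1 ((tq v1 v2 w gx gy) i j).2 := by rw [e]; exact ht
    rcases Z.tieq (by omega) (by omega) (by omega) (by omega) ht' with
      ⟨-, h5, -, -, b', h6, h7, h8, h9, -⟩ | ⟨-, -, -, h5, -⟩
    · rw [e, ← e2, gq_inj] at h9
      omega
    · rw [e] at h5
      exact absurd (he2.symm.trans h5) Z.ne
  · obtain ⟨i, j, h2, h3, h4⟩ := el_q hev hz
    rw [h2] at h1
    unfold LamQ at h1
    rw [if_pos rfl, mem_union, mem_union, mem_LQ, mem_R2] at h1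
    rcases h1 with h1 | h1 | h1
    · have := (Z.inP i j (by omega) (by omega) (by omega) (by omega)).1 (LaA_in h1)
      omega
    · omega
    · omega

lemma vnF (hh : 1 ≤ h) (hM : M = 2 * h + 2) (hN : 3 * h + 6 ≤ N)
    (hev : ev ((gq v1 v2 w gx gy) a b) = colp D iF) (hn : (-3 ≤ 2 * a ∧ 2 * a ≤ 2 * M + 2) ∧ -3 ≤ 2 * b ∧
      2 * b ≤ 2 * M + 2)
    (hv : VN (colp D iF) (LamQ v1 v2 w gx gy h M D p s0 iL iF iF) (TF (TA D p) (fmA D p s0) iF)
      (bA D p) (gp ((gq v1 v2 w gx gy) a b))) : -1 ≤ a ∧ 0 ≤ b := by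
  rcases hv with ⟨e, he, h1⟩ | ⟨z, hz, h1⟩
  · obtain ⟨he1, he2⟩ := mem_TF.1 he
    obtain ⟨u, v, s, c, rfl, ht⟩ := exists_tie he1
    obtain ⟨i, j, e⟩ := tq_surj (v1 := v1) (v2 := v2) (w := w) (gx := gx) (gy := gy) (u, v)
    have hc : c = colp D iF := by rw [← he2, ht.co]
    have hb := ht.b
    rw [h1] at hb
    have hev2 : ev (bt s c (u, v)) = c := ev_bt ht.odd
    have e2 : (gq v1 v2 w gx gy) a b = bt s c (u, v) := gp_inj (by rw [hev, hev2, hc]) hb
    have hon : OnT ((gq v1 v2 w gx gy) a b) ((tq v1 v2 w gx gy) i j).1 ((tq v1 v2 w gx gy) i j).2 := by rw [e2, e]; exact onT_bt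
    rw [onT_q] at hon
    have ht' : TieP D p s c ((tq v1 v2 w gx gy) i j).1 ((tq v1 v2 w gx gy) i j).2 := by rw [e]; exact ht
    rcases Z.tieq (by omega) (by omega) (by omega) (by omega) ht' with
      ⟨-, -, -, h5, -⟩ | ⟨-, h5, -, -, b', h6, h7, h8, h9, -⟩
    · rw [e] at h5
      exact absurd (h5.symm.trans he2) Z.ne
    · rw [e, ← e2, gq_inj] at h9
      omega
  · obtain ⟨i, j, h2, h3, h4⟩ := el_q hev hz
    rw [h2] at h1
    unfold LamQ at h1
    rw [if_neg Z.ne.symm, if_pos rfl, mem_union, mem_union, mem_LQ, mem_R1] at h1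
    rcases h1 with h1 | h1 | h1
    · have := (Z.inP i j (by omega) (by omega) (by omega) (by omega)).1 (LaA_in h1)
      omega
    · omega
    · omega

/-- exits of the wide layer of `iL` -/
lemma exitL (hS : S ⊆ FR D p) (hL : 5 ≤ L) (hh : 1 ≤ h) (hM : M = 2 * h + 2) (hN : 3 * h + 6 ≤ N)
    (hd : (lt ((tq v1 v2 w gx gy) (-1) (-1)) ∈ S ↔ colp D iL = true) → FzA D p s0 L S iL ((tq v1 v2 w gx gy) (-1) (-1)).1 ((tq v1 v2 w gx gy) (-1) (-1)).2)
    (hu : IsUnit4 (y - x)) (hn : NB (chQ v1 v2 w gx gy) (2 * M) (nd (colp D iL) x))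
    (hv : VN (colp D iL) (LamQ v1 v2 w gx gy h M D p s0 iL iF iL) (TF (TA D p) (fmA D p s0) iL)
      (bA D p) x)
    (ha : av (EN D p) (WA O p S) (TA D p) (fmA D p s0) (colp D) (WlA D p s0 L S) iL
      (el (colp D iL) x y)) :
    el (colp D iL) x y ∈ LamQ v1 v2 w gx gy h M D p s0 iL iF iL ∨
      ∃ q, IsUnit4 (q - nd (colp D iL) x) ∧ (0 ≤ (chQ v1 v2 w gx gy).U q ∧
        -2 ≤ (chQ v1 v2 w gx gy).V q) ∧ (chQ v1 v2 w gx gy).Far h (2 * M) (2 * M) q := by
  obtain ⟨a, b, hev, rfl⟩ := node_q (colp D iL) x v1 v2 w gx gy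
  have hUV := gq_UV hev
  unfold NB at hn
  rw [hUV.1, hUV.2] at hn
  obtain ⟨ha0, hb0⟩ := Z.vnL hh hM hN hev hn hv
  obtain ⟨i, j, he, hi, hj⟩ := el_q hev hu
  have hpar := Z.evGL.1 hev
  rw [he] at ha ⊢
  by_cases hfar : M ≤ a ∨ M ≤ b
  · right
    refine ⟨lt ((tq v1 v2 w gx gy) a b), unit_q hev (Or.inl rfl) (Or.inl rfl), ?_, ?_⟩
    · rw [tq_UV.1, tq_UV.2]; omega
    · right
      rw [tq_UV.1, tq_UV.2]
      omega
  · by_cases hi0 : 0 ≤ i
    · by_cases hj0 : 0 ≤ j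
      · by_cases hq : i < h ∨ j < h
        · left
          unfold LamQ
          rw [if_pos rfl, mem_union, mem_union, mem_LQ]
          right; left; omega
        · right
          refine ⟨lt ((tq v1 v2 w gx gy) i j), unit_q hev hi hj, ?_, ?_⟩
          · rw [tq_UV.1, tq_UV.2]; omega
          · left; rw [tq_UV.1, tq_UV.2]; omega
      · by_cases hj1 : j = -1
        · left
          unfold LamQ
          rw [if_pos rfl, mem_union, mem_union, mem_R2]
          right; right; omega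
        · exfalso
          have e : j = -2 := by omega
          subst e
          refine av_fill hL hS (Z.fill (by omega) (by omega) (by omega) (by omega) (by omega))
            (Z.inB (by omega) (by omega) (by omega) (by omega) (by omega)) (Or.inl ?_) ha
          rw [Z.nf2 (by omega) (by omega), Z.colF]
          cases colp D iL <;> simp
    · exfalso
      have e1 : i = -1 := by omega
      have e2 : a = 0 := by omega
      subst e1 e2
      by_cases hb : b = 0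
      · subst hb
        rcases hj with rfl | hj
        · refine av_fz hL (Z.fz10 (by omega)) ?_ ha
          intro hs
          refine ⟨Z.fz10 (by omega), hs, (gq v1 v2 w gx gy) (-1) 1, ?_, onT_q.2 (by omega), _, _, ?_,
            (onT_q (i := -2) (j := 0)).2 (by omega)⟩
          · rw [Z.evGL]; omega
          · exact ⟨InL_of_InB hL (Z.inB (by omega) (by omega) (by omega) (by omega) (by omega)),
              Z.fill (by omega) (by omega) (by omega) (by omega) (by omega),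
              Z.aL2 0 (by omega) (by omega), fun _ =>
              Z.inB (by omega) (by omega) (by omega) (by omega) (by omega)⟩
        · have e3 : j = -1 := by omega
          subst e3
          exact av_fz hL (Z.fz11 (by omega)) hd ha
      · obtain ⟨j0, k1, k2, k3, k4, k5⟩ := Z.exTL (b := b) (by omega) (by omega) (by omega)
        have hk : kt (sq1 v1 v2 w, (gq v1 v2 w gx gy) (-1) b) = (tq v1 v2 w gx gy) (-1) j0 := by
          rcases k5 j0 k1 with g | g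
          · exact g.symm
          · exfalso
            have h1 := rt_even (sq1 v1 v2 w, (gq v1 v2 w gx gy) (-1) b)
            rw [← g] at h1
            have h2 := mem_TA.1 (show lt (((tq v1 v2 w gx gy) (-1) j0).1, ((tq v1 v2 w gx gy) (-1) j0).2) ∈ TA D p from k2)
            obtain ⟨_, _, h3⟩ := h2
            have := h3.odd
            omega
        exact av_pair hS (Z.caL (by omega) (by omega) (by omega)) (by rw [hk]; exact k3)
          (k5 j (by omega)) ha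

/-- exits of the wide layer of `iF` -/
lemma exitF (hS : S ⊆ FR D p) (hL : 5 ≤ L) (hh : 1 ≤ h) (hM : M = 2 * h + 2) (hN : 3 * h + 6 ≤ N)
    (hu : IsUnit4 (y - x)) (hn : NB (chQ v1 v2 w gx gy) (2 * M) (nd (colp D iF) x))
    (hv : VN (colp D iF) (LamQ v1 v2 w gx gy h M D p s0 iL iF iF) (TF (TA D p) (fmA D p s0) iF)
      (bA D p) x)
    (ha : av (EN D p) (WA O p S) (TA D p) (fmA D p s0) (colp D) (WlA D p s0 L S) iF
      (el (colp D iF) x y)) :
    el (colp D iF) x y ∈ LamQ v1 v2 w gx gy h M D p s0 iL iF iF ∨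
      ∃ q, IsUnit4 (q - nd (colp D iF) x) ∧ (-2 ≤ (chQ v1 v2 w gx gy).U q ∧
        0 ≤ (chQ v1 v2 w gx gy).V q) ∧ (chQ v1 v2 w gx gy).Far h (2 * M) (2 * M) q := by
  obtain ⟨a, b, hev, rfl⟩ := node_q (colp D iF) x v1 v2 w gx gy
  have hUV := gq_UV hev
  unfold NB at hn
  rw [hUV.1, hUV.2] at hn
  obtain ⟨ha0, hb0⟩ := Z.vnF hh hM hN hev hn hv
  obtain ⟨i, j, he, hi, hj⟩ := el_q hev hu
  have hpar := Z.evGF.1 hev
  rw [he] at ha ⊢
  by_cases hfar : M ≤ a ∨ M ≤ b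
  · right
    refine ⟨lt ((tq v1 v2 w gx gy) a b), unit_q hev (Or.inl rfl) (Or.inl rfl), ?_, ?_⟩
    · rw [tq_UV.1, tq_UV.2]; omega
    · right
      rw [tq_UV.1, tq_UV.2]
      omega
  · by_cases hj0 : 0 ≤ j
    · by_cases hi0 : 0 ≤ i
      · by_cases hq : i < h ∨ j < h
        · left
          unfold LamQ
          rw [if_neg Z.ne.symm, if_pos rfl, mem_union, mem_union, mem_LQ]
          right; left; omega
        · right
          refine ⟨lt ((tq v1 v2 w gx gy) i j), unit_q hev hi hj, ?_, ?_⟩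
          · rw [tq_UV.1, tq_UV.2]; omega
          · left; rw [tq_UV.1, tq_UV.2]; omega
      · by_cases hi1 : i = -1
        · left
          unfold LamQ
          rw [if_neg Z.ne.symm, if_pos rfl, mem_union, mem_union, mem_R1]
          right; right; omega
        · exfalso
          have e : i = -2 := by omega
          subst e
          refine av_fill hL hS (Z.fill (by omega) (by omega) (by omega) (by omega) (by omega))
            (Z.inB (by omega) (by omega) (by omega) (by omega) (by omega)) (Or.inl ?_) ha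
          rw [Z.nc2 (by omega) (by omega), Z.colF]
          cases colp D iL <;> simp
    · exfalso
      have e1 : j = -1 := by omega
      have e2 : b = 0 := by omega
      subst e1 e2
      by_cases hb : a = -1
      · subst hb
        rcases hi with rfl | hi
        · refine av_fz hL (Z.fz11 (by omega)) ?_ ha
          intro hs
          refine ⟨Z.fz11 (by omega), hs, (gq v1 v2 w gx gy) 0 (-1), ?_, onT_q.2 (by omega), _, _, ?_,
            (onT_q (i := 0) (j := -2)).2 (by omega)⟩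
          · rw [Z.evGF]; omega
          · exact ⟨InL_of_InB hL (Z.inB (by omega) (by omega) (by omega) (by omega) (by omega)),
              Z.fill (by omega) (by omega) (by omega) (by omega) (by omega),
              Z.aF2 0 (by omega) (by omega), fun _ =>
              Z.inB (by omega) (by omega) (by omega) (by omega) (by omega)⟩
        · have e3 : i = -2 := by omega
          subst e3
          refine av_fill hL hS (Z.fill (by omega) (by omega) (by omega) (by omega) (by omega))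
            (Z.inB (by omega) (by omega) (by omega) (by omega) (by omega)) ?_ ha
          rcases Z.aD with g | g
          · left
            rw [← colp_arc (s0 := s0), g, Z.colF]
            cases colp D iL <;> simp
          · right; exact g
      · obtain ⟨j0, k1, k2, k3, k4, k5⟩ := Z.exTF (a := a) (by omega) (by omega) (by omega)
        have hk : kt (sq2 v1 v2 w, (gq v1 v2 w gx gy) a (-1)) = (tq v1 v2 w gx gy) j0 (-1) := by
          rcases k5 j0 k1 with g | g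
          · exact g.symm
          · exfalso
            have h1 := rt_even (sq2 v1 v2 w, (gq v1 v2 w gx gy) a (-1))
            rw [← g] at h1
            have h2 := mem_TA.1 (show lt (((tq v1 v2 w gx gy) j0 (-1)).1, ((tq v1 v2 w gx gy) j0 (-1)).2) ∈ TA D p from k2)
            obtain ⟨_, _, h3⟩ := h2
            have := h3.odd
            omega
        exact av_pair hS (Z.caF (by omega) (by omega) (by omega)) (by rw [hk]; exact k3)
          (k5 i (by omega)) ha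

end Zn

lemma tie_el {k : Sd} {u v : ℤ} (h : (u + v) % 2 = 1) :
    lt (u, v) = el c (gp (bt k c (u, v))) (gp (ot k c (u, v))) := by
  cases c
  · have h1 := sum_bt_false (k := k) h
    rw [el_false, add_comm (gp (bt k false (u, v))), h1, add_sub_cancel_right]
  · have h1 := sum_bt_true (k := k) h
    rw [el_true, add_comm (gp (bt k true (u, v))), h1]

namespace Zn

variable (Z : Zn D p s0 v1 v2 w gx gy iL iF N)
include Z

/-- **The ties near the corner.** -/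
theorem tn_cases (hh : 1 ≤ h) (hN : 3 * h + 6 ≤ N) {e : ℤ × ℤ} (heT : e ∈ TA D p)
    (hU : |(chQ v1 v2 w gx gy).U (nd (colp D (fmA D p s0 e)) (bA D p e))| ≤ 4 * h)
    (hV : |(chQ v1 v2 w gx gy).V (nd (colp D (fmA D p s0 e)) (bA D p e))| ≤ 4 * h) :
    (fmA D p s0 e = iL ∧ ∃ j b, (b = j ∨ b = j + 1) ∧ 1 ≤ b ∧ b ≤ 2 * h ∧ b % 2 = 0 ∧
      e = lt ((tq v1 v2 w gx gy) (-1) j) ∧ bA D p e = gp ((gq v1 v2 w gx gy) 0 b) ∧ oA D p e = gp ((gq v1 v2 w gx gy) (-1) (2 * j + 1 - b)) ∧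
      ev ((gq v1 v2 w gx gy) 0 b) = colp D iL ∧ ev ((gq v1 v2 w gx gy) (-1) (2 * j + 1 - b)) = colp D iL ∧
      IsUnit4 (oA D p e - bA D p e) ∧ e = el (colp D iL) (bA D p e) (oA D p e)) ∨
    (fmA D p s0 e = iF ∧ ∃ i a, (a = i ∨ a = i + 1) ∧ 1 ≤ a ∧ a ≤ 2 * h ∧ a % 2 = 1 ∧
      e = lt ((tq v1 v2 w gx gy) i (-1)) ∧ bA D p e = gp ((gq v1 v2 w gx gy) a 0) ∧ oA D p e = gp ((gq v1 v2 w gx gy) (2 * i + 1 - a) (-1)) ∧
      ev ((gq v1 v2 w gx gy) a 0) = colp D iF ∧ ev ((gq v1 v2 w gx gy) (2 * i + 1 - a) (-1)) = colp D iF ∧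
      IsUnit4 (oA D p e - bA D p e) ∧ e = el (colp D iF) (bA D p e) (oA D p e)) := by
  obtain ⟨u, v, s, c, rfl, ht⟩ := exists_tie heT
  obtain ⟨i, j, e⟩ := tq_surj (v1 := v1) (v2 := v2) (w := w) (gx := gx) (gy := gy) (u, v)
  obtain ⟨a, b, e2⟩ := gq_surj (v1 := v1) (v2 := v2) (w := w) (gx := gx) (gy := gy) (bt s c (u, v))
  have hev2 : ev (bt s c (u, v)) = c := ev_bt ht.odd
  have hev3 : ev (ot s c (u, v)) = c := ev_ot ht.odd
  have hon : OnT ((gq v1 v2 w gx gy) a b) ((tq v1 v2 w gx gy) i j).1 ((tq v1 v2 w gx gy) i j).2 := by rw [e2, e]; exact onT_bt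
  rw [onT_q] at hon
  rw [ht.co, ht.b, ← e2] at hU hV
  have hev4 : ev ((gq v1 v2 w gx gy) a b) = c := by rw [e2]; exact hev2
  rw [(gq_UV hev4).1] at hU
  rw [(gq_UV hev4).2] at hV
  rw [abs_le] at hU hV
  have ht' : TieP D p s c ((tq v1 v2 w gx gy) i j).1 ((tq v1 v2 w gx gy) i j).2 := by rw [e]; exact ht
  have hun := Pool.Agent.H13.R45.unit_neg' (unit_bt (k := s) (c := c) ht.odd)
  have hel := tie_el (c := c) (k := s) ht.odd
  rcases Z.tieq (by omega) (by omega) (by omega) (by omega) ht' with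
    ⟨h3, h4, h5, h6, b', h7, h8, h9, h10, h11⟩ | ⟨h3, h4, h5, h6, b', h7, h8, h9, h10, h11⟩
  · left
    rw [e] at h6 h10 h11
    rw [← e2, gq_inj] at h10
    obtain ⟨k1, k2⟩ := h10
    subst h4 k1
    subst k2
    rw [ht.b, ht.o, ← h5, ← e]
    refine ⟨by rw [e]; exact h6, j, b, by omega, h8, by omega, h9, rfl, ?_, ?_, ?_, ?_, ?_, ?_⟩
    · rw [e, ← e2]
    · rw [e, h11]
    · exact hev4
    · rw [← h11]; exact hev3
    · rw [e]; exact hun
    · rw [e]; exact hel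
  · right
    rw [e] at h6 h10 h11
    rw [← e2, gq_inj] at h10
    obtain ⟨k1, k2⟩ := h10
    subst h4 k1
    subst k2
    rw [ht.b, ht.o, ← h5, ← e]
    refine ⟨by rw [e]; exact h6, i, a, by omega, h8, by omega, h9, rfl, ?_, ?_, ?_, ?_, ?_, ?_⟩
    · rw [e, ← e2]
    · rw [e, h11]
    · exact hev4
    · rw [← h11]; exact hev3
    · rw [e]; exact hun
    · rw [e]; exact hel

/-- labels of `L` are in the layers -/
lemma lq_la (hM : M = 2 * h + 2) (hN : 3 * h + 6 ≤ N) (hh : 1 ≤ h)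
    (hl : lt ((tq v1 v2 w gx gy) i j) ∈ LQ v1 v2 w gx gy h M) :
    (i < h → lt ((tq v1 v2 w gx gy) i j) ∈ LaA D p s0 h iL) ∧ (j < h → lt ((tq v1 v2 w gx gy) i j) ∈ LaA D p s0 h iF) := by
  rw [mem_LQ] at hl
  have hp := (Z.inP i j (by omega) (by omega) (by omega) (by omega)).2 (by omega)
  constructor
  · intro hi
    rw [show lt ((tq v1 v2 w gx gy) i j) = lt (((tq v1 v2 w gx gy) i j).1, ((tq v1 v2 w gx gy) i j).2) from rfl, mem_LaA]
    refine ⟨hp, ((tq v1 v2 w gx gy) (-1) j).1, ((tq v1 v2 w gx gy) (-1) j).2, ?_, Z.aL1 j (by omega) (by omega), ?_⟩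
    · rw [Z.inP _ _ (by omega) (by omega) (by omega) (by omega)]; omega
    · exact dist_q.2 (by omega)
  · intro hj
    rw [show lt ((tq v1 v2 w gx gy) i j) = lt (((tq v1 v2 w gx gy) i j).1, ((tq v1 v2 w gx gy) i j).2) from rfl, mem_LaA]
    refine ⟨hp, ((tq v1 v2 w gx gy) i (-1)).1, ((tq v1 v2 w gx gy) i (-1)).2, ?_, Z.aF1 i (by omega) (by omega), ?_⟩
    · rw [Z.inP _ _ (by omega) (by omega) (by omega) (by omega)]; omega
    · exact dist_q.2 (by omega)

/-- labels of the layers near the corner are in `L` -/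
lemma la_lq (hM : M = 2 * h + 2) (hN : 3 * h + 6 ≤ N) (hh : 1 ≤ h) {i' : ℤ}
    (hl : lt ((tq v1 v2 w gx gy) i j) ∈ LaA D p s0 h i') (h1 : |2 * i + 1| ≤ 4 * h) (h2 : |2 * j + 1| ≤ 4 * h) :
    lt ((tq v1 v2 w gx gy) i j) ∈ LQ v1 v2 w gx gy h M := by
  rw [abs_le] at h1 h2
  rw [mem_LQ]
  have hp := (Z.inP i j (by omega) (by omega) (by omega) (by omega)).1 (LaA_in hl)
  obtain ⟨-, u, v, h3, -, h4⟩ := mem_LaA.1 (show lt (((tq v1 v2 w gx gy) i j).1, ((tq v1 v2 w gx gy) i j).2) ∈ _ from hl)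
  obtain ⟨a, b, e⟩ := tq_surj (v1 := v1) (v2 := v2) (w := w) (gx := gx) (gy := gy) (u, v)
  have hd := (dist_q (v1 := v1) (v2 := v2) (w := w) (gx := gx) (gy := gy) (i := i) (j := j)
    (i' := a) (j' := b) (m := h)).1 (by rw [e]; exact h4)
  have h5 : ¬ (0 ≤ a ∧ 0 ≤ b) := by
    rw [← Z.inP a b (by omega) (by omega) (by omega) (by omega), e]; exact h3
  omega

variable (hS : S ⊆ FR D p) (hL : 5 ≤ L) (hh : 1 ≤ h) (hM : M = 2 * h + 2) (hN : 3 * h + 6 ≤ N)
  (hB : ∀ i, LaA D p s0 h i ⊆ B)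
  (hd : (lt (tq v1 v2 w gx gy (-1) (-1)) ∈ S ↔ colp D iL = true) →
    FzA D p s0 L S iL (tq v1 v2 w gx gy (-1) (-1)).1 (tq v1 v2 w gx gy (-1) (-1)).2)

include hS hL hh hM hN hB hd

/-- **`CnrW` for the environment `XA`.** -/
theorem cnrW : CnrW (WA O p S) (EN D p) B (TA D p) (TnQ v1 v2 w gx gy h D p s0) (fmA D p s0)
    (colp D) (WlA D p s0 L S) (LaA D p s0 h) (LamQ v1 v2 w gx gy h M D p s0 iL iF) (bA D p)
    (oA D p) (LQ v1 v2 w gx gy h M) iL iF (chQ v1 v2 w gx gy) h (2 * M) (2 * M) (2 * M) where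
  hh := hh
  Um0 := by omega
  Vm0 := by omega
  UD := le_rfl
  VD := le_rfl
  col := Z.colF
  LB := by
    intro l hl
    obtain ⟨i, j, rfl⟩ := LQ_T hl
    have h1 := Z.lq_la hM hN hh hl
    have h2 := (mem_LQ.1 hl).2
    rcases h2 with h2 | h2
    · exact hB _ (h1.1 h2)
    · exact hB _ (h1.2 h2)
  Lr := by
    intro l hl
    obtain ⟨i, j, rfl⟩ := LQ_T hl
    rw [mem_LQ] at hl
    rw [tq_UV.1, tq_UV.2]
    omega
  LΛL := by
    intro l hl
    unfold LamQ
    rw [if_pos rfl]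
    exact mem_union_right _ (mem_union_left _ hl)
  LΛF := by
    intro l hl
    unfold LamQ
    rw [if_neg Z.ne.symm, if_pos rfl]
    exact mem_union_right _ (mem_union_left _ hl)
  LaL := by
    intro l hl
    unfold LamQ
    rw [if_pos rfl]
    exact mem_union_left _ hl
  LaF := by
    intro l hl
    unfold LamQ
    rw [if_neg Z.ne.symm, if_pos rfl]
    exact mem_union_left _ hl
  ΛL := by
    intro l hl hn
    unfold LamQ at hl
    rw [if_pos rfl, mem_union, mem_union] at hl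
    rcases hl with hl | hl | hl
    · obtain ⟨i, j, rfl⟩ := odd_T (odd_LaA hl) v1 v2 w gx gy
      unfold NB at hn
      rw [tq_UV.1, tq_UV.2] at hn ⊢
      have := (Z.inP i j (by omega) (by omega) (by omega) (by omega)).1 (LaA_in hl)
      omega
    · obtain ⟨i, j, rfl⟩ := LQ_T hl
      rw [mem_LQ] at hl
      rw [tq_UV.1, tq_UV.2]
      omega
    · obtain ⟨i, j, rfl⟩ := R2_T hl
      rw [mem_R2] at hl
      rw [tq_UV.1, tq_UV.2]
      omega
  ΛF := by
    intro l hl hn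
    unfold LamQ at hl
    rw [if_neg Z.ne.symm, if_pos rfl, mem_union, mem_union] at hl
    rcases hl with hl | hl | hl
    · obtain ⟨i, j, rfl⟩ := odd_T (odd_LaA hl) v1 v2 w gx gy
      unfold NB at hn
      rw [tq_UV.1, tq_UV.2] at hn ⊢
      have := (Z.inP i j (by omega) (by omega) (by omega) (by omega)).1 (LaA_in hl)
      omega
    · obtain ⟨i, j, rfl⟩ := LQ_T hl
      rw [mem_LQ] at hl
      rw [tq_UV.1, tq_UV.2]
      omega
    · obtain ⟨i, j, rfl⟩ := R1_T hl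
      rw [mem_R1] at hl
      rw [tq_UV.1, tq_UV.2]
      omega
  dL := by
    rw [disjoint_left]
    intro l hl hl'
    obtain ⟨h1, h2⟩ := mem_TF.1 hl'
    obtain ⟨i, j, rfl⟩ := odd_T (odd_TA h1) v1 v2 w gx gy
    obtain ⟨s, c, ht⟩ := mem_TA.1 (show lt (((tq v1 v2 w gx gy) i j).1, ((tq v1 v2 w gx gy) i j).2) ∈ _ from h1)
    unfold LamQ at hl
    rw [if_pos rfl, mem_union, mem_union, mem_LQ, mem_R2] at hl
    rcases hl with hl | hl | hl
    · exact ht.ly.out (LaA_in hl)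
    · exact ht.ly.out ((Z.inP i j (by omega) (by omega) (by omega) (by omega)).2 (by omega))
    · rcases Z.tieq (by omega) (by omega) (by omega) (by omega) ht with ⟨-, h5, -⟩ | ⟨-, -, -, h5, -⟩
      · omega
      · exact Z.ne (h2.symm.trans h5)
  dF := by
    rw [disjoint_left]
    intro l hl hl'
    obtain ⟨h1, h2⟩ := mem_TF.1 hl'
    obtain ⟨i, j, rfl⟩ := odd_T (odd_TA h1) v1 v2 w gx gy
    obtain ⟨s, c, ht⟩ := mem_TA.1 (show lt (((tq v1 v2 w gx gy) i j).1, ((tq v1 v2 w gx gy) i j).2) ∈ _ from h1)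
    unfold LamQ at hl
    rw [if_neg Z.ne.symm, if_pos rfl, mem_union, mem_union, mem_LQ, mem_R1] at hl
    rcases hl with hl | hl | hl
    · exact ht.ly.out (LaA_in hl)
    · exact ht.ly.out ((Z.inP i j (by omega) (by omega) (by omega) (by omega)).2 (by omega))
    · rcases Z.tieq (by omega) (by omega) (by omega) (by omega) ht with ⟨-, -, -, h5, -⟩ | ⟨-, h5, -⟩
      · exact Z.ne (h5.symm.trans h2)
      · omega
  tn := filter_subset _ _
  tL := by
    intro e he hf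
    obtain ⟨he1, he2, he3⟩ := mem_filter.1 he
    rcases Z.tn_cases hh hN he1 he2 he3 with ⟨-, j, b, h1, h2, h3, h4, h5, h6, h7, h8, h9, h10, h11⟩ |
      ⟨h1, -⟩
    · refine ⟨h10, h11, ?_, ?_, ?_, ?_⟩
      · rw [h6, (gq_UV h8).1]; rfl
      · rw [h6, (gq_UV h8).2]; omega
      · rw [h5, tq_UV.1]; rfl
      · rw [h7, (gq_UV h9).1]; rfl
    · exact absurd (hf.symm.trans h1) Z.ne
  tLm := by
    intro e he hf
    obtain ⟨he1, he2, he3⟩ := mem_filter.1 he
    rcases Z.tn_cases hh hN he1 he2 he3 with ⟨-, j, b, h1, h2, h3, h4, h5, h6, h7, h8, h9, h10, h11⟩ |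
      ⟨h1, -⟩
    · refine ⟨?_, ?_, ?_⟩
      · rw [h6, (gq_UV h8).2]; omega
      · rw [h5, tq_UV.2]; omega
      · rw [h7, (gq_UV h9).2]; omega
    · exact absurd (hf.symm.trans h1) Z.ne
  tF := by
    intro e he hf
    obtain ⟨he1, he2, he3⟩ := mem_filter.1 he
    rcases Z.tn_cases hh hN he1 he2 he3 with ⟨h1, -⟩ |
      ⟨-, j, b, h1, h2, h3, h4, h5, h6, h7, h8, h9, h10, h11⟩
    · exact absurd (h1.symm.trans hf) Z.ne
    · refine ⟨h10, h11, ?_, ?_, ?_⟩
      · rw [h6, (gq_UV h8).2]; rfl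
      · rw [h5, tq_UV.2]; rfl
      · rw [h7, (gq_UV h9).2]; rfl
  tFm := by
    intro e he hf
    obtain ⟨he1, he2, he3⟩ := mem_filter.1 he
    rcases Z.tn_cases hh hN he1 he2 he3 with ⟨h1, -⟩ |
      ⟨-, j, b, h1, h2, h3, h4, h5, h6, h7, h8, h9, h10, h11⟩
    · exact absurd (h1.symm.trans hf) Z.ne
    · refine ⟨?_, ?_, ?_⟩
      · rw [h6, (gq_UV h8).1]; omega
      · rw [h5, tq_UV.1]; omega
      · rw [h7, (gq_UV h9).1]; omega
  exL := fun _ _ hu hn hv ha => Z.exitL hS hL hh hM hN hd hu hn hv ha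
  exF := fun _ _ hu hn hv ha => Z.exitF hS hL hh hM hN hu hn hv ha

omit hS hL hB hd

/-- **`CnrN` for the environment `XA`.** -/
theorem cnrN : CnrN (TA D p) (TnQ v1 v2 w gx gy h D p s0) (fmA D p s0)
    (colp D) (LaA D p s0 h) (bA D p) (LQ v1 v2 w gx gy h M) iL iF (chQ v1 v2 w gx gy) h where
  laL := by
    intro l hl h1
    obtain ⟨i, j, rfl⟩ := LQ_T hl
    rw [tq_UV.1] at h1
    exact (Z.lq_la hM hN hh hl).1 (by omega)
  laF := by
    intro l hl h1
    obtain ⟨i, j, rfl⟩ := LQ_T hl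
    rw [tq_UV.2] at h1
    exact (Z.lq_la hM hN hh hl).2 (by omega)
  fullL := by
    intro x h1 h2 h3
    obtain ⟨a, b, hev, rfl⟩ := node_q (colp D iL) x v1 v2 w gx gy
    rw [(gq_UV hev).1] at h1
    rw [(gq_UV hev).2] at h2 h3
    have e : a = 0 := by omega
    subst e
    have hpar := Z.evGL.1 hev
    obtain ⟨j, k1, k2, k3, k4, -⟩ := Z.exTL (b := b) (by omega) (by omega) (by omega)
    refine ⟨_, mem_filter.2 ⟨k2, ?_, ?_⟩, k3, k4⟩
    · rw [k3, k4, (gq_UV hev).1, abs_le]; omega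
    · rw [k3, k4, (gq_UV hev).2, abs_le]; omega
  fullF := by
    intro x h1 h2 h3
    obtain ⟨a, b, hev, rfl⟩ := node_q (colp D iF) x v1 v2 w gx gy
    rw [(gq_UV hev).2] at h1
    rw [(gq_UV hev).1] at h2 h3
    have e : b = 0 := by omega
    subst e
    have hpar := Z.evGF.1 hev
    obtain ⟨j, k1, k2, k3, k4, -⟩ := Z.exTF (a := a) (by omega) (by omega) (by omega)
    refine ⟨_, mem_filter.2 ⟨k2, ?_, ?_⟩, k3, k4⟩
    · rw [k3, k4, (gq_UV hev).1, abs_le]; omega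
    · rw [k3, k4, (gq_UV hev).2, abs_le]; omega
  laN := by
    intro i' _ l hl h1 h2
    obtain ⟨i, j, rfl⟩ := odd_T (odd_LaA hl) v1 v2 w gx gy
    rw [tq_UV.1] at h1
    rw [tq_UV.2] at h2
    exact Z.la_lq hM hN hh hl h1 h2
  tieN := by
    intro e he _ h1 h2
    exact mem_filter.2 ⟨he, h1, h2⟩

/-- the surrounding property -/
theorem surQ {ρ : ℤ} (hρ : ρ ≤ h) (ω : Finset (ℤ × ℤ)) :
    (chQ v1 v2 w gx gy).Sur ρ (LQ v1 v2 w gx gy h M) ω := by
  refine Cht.sur_of ?_ ?_ ω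
  · intro l hl
    obtain ⟨i, j, rfl⟩ := LQ_T hl
    rw [mem_LQ] at hl
    rw [tq_UV.1, tq_UV.2]
    omega
  · intro l ho h1 h2 h3 h4
    obtain ⟨i, j, rfl⟩ := odd_T ho v1 v2 w gx gy
    rw [tq_UV.1] at h1 h3
    rw [tq_UV.2] at h2 h4
    rw [mem_LQ]
    omega

end Zn

end Pool.Agent.H27.W.N
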