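import Mathlib
import Pool.Agent.H2.W.CellR
import Pool.Agent.H40.W.NMCor

set_option autoImplicit false
open Finset

/-! # The corners of a coarse window with a flat right wall

Successor of `H40/Sp/Zc`. `Zc` : geometry of `P^p` near a convex corner of the left arc, in horizontal and
vertical offsets. `zc_LF`, `zc_LC` : the two types of corners. All tiles outside of the quadrant which are
below (above) the corner belong to the arc `iH` (the colours are colours of rows). `ni`, `no` : the diagonal
tile is off the line or the turn tile of the line, its natural state does not have the colour of the corner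
point. -/

namespace Pool.Agent.H27.W.N

open Pool.Agent.H75.Perc Pool.Agent.H75.TwoArm Pool.Agent.Q1 Pool.Agent.H33.Q1
open Pool.Agent.H69.Q1
open Pool.Agent.H54.W (Win)
open Pool.Agent.H54.W.Win
open Pool.Agent.H72.W.N
open Pool.Agent.H40.W.N
open Pool.Agent.H42.Sp (Sd Ix kt rt kt_odd rt_even kt_Tg rt_Tg)
open Pool.Agent.H13.R45 (ev gp ev_true ev_false Tg)
open Pool.Agent.H40.Sp (tX pX oT oP oT_tX tX_oT oP_pX pX_oP chQ chQ_UV chQ_lt chQ_gp eS flS yV yH)
open Pool.Agent.H95.W (CoarseR CoarseRC)

/-- **Geometry near a convex corner.** -/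
structure Zc (D : Win) (p : Bool) (s0 : ℤ) (v1 v2 : Bool) (gx gy iV iH N : ℤ) : Prop where
  inP : ∀ i j, -N ≤ i → i ≤ N → -N ≤ j → j ≤ N →
    (InP D p (tX v1 gx i) (tX v2 gy j) ↔ 0 ≤ i ∧ 0 ≤ j)
  lyV : ∀ j, 0 ≤ j → j < N → LyA D p (if v1 = true then .L else .R) (tX v1 gx (-1)) (tX v2 gy j)
  lyH : ∀ i, 0 ≤ i → i < N → LyA D p (if v2 = true then .F else .C) (tX v1 gx i) (tX v2 gy (-1))
  aV1 : ∀ j, 0 ≤ j → j < N → arc D p s0 (tX v1 gx (-1)) (tX v2 gy j) = iV
  aV2 : ∀ j, 0 ≤ j → j < N → arc D p s0 (tX v1 gx (-2)) (tX v2 gy j) = iV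
  aH1 : ∀ i, 0 ≤ i → i < N → arc D p s0 (tX v1 gx i) (tX v2 gy (-1)) = iH
  aH2 : ∀ i, 0 ≤ i → i < N → arc D p s0 (tX v1 gx i) (tX v2 gy (-2)) = iH
  a12 : arc D p s0 (tX v1 gx (-1)) (tX v2 gy (-2)) = iH
  a21 : arc D p s0 (tX v1 gx (-2)) (tX v2 gy (-1)) = iH
  nw : tX v1 gx (-1) + sh p < D.w
  ni : ¬ D.InE (tp D p) (tX v1 gx (-1)) (tX v2 gy (-1))
  no : ev (gx, gy) = colp D iV → colp D iV ≠ colp D iH →
    ¬ (D.InO (tp D p) (tX v1 gx (-1)) (tX v2 gy (-1)) ↔ colp D iV = true)

variable {D : Win} {n H W : ℤ} {A : ℤ → ℤ} {CL : ℤ → Bool} {p : Bool} {s0 x y Y i j : ℤ}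

lemma tX_t {g : ℤ} : tX true g i = g + i := by unfold tX; rw [if_pos rfl]
lemma tX_f {g : ℤ} : tX false g i = g - 1 - i := by unfold tX; rw [if_neg Bool.false_ne_true]

/-! ### Rows -/

section rows

variable (C : CoarseR D n H W A)
include C

lemma row_h (h0 : 0 ≤ Y) (h1 : Y < H) : 0 ≤ n * Y ∧ n * Y + n ≤ D.h :=
  ⟨(C.row0 h0 h1).1, (C.row0 h0 h1).2.1⟩

omit C in
lemma row_div (hn : 0 < n) (h1 : n * Y ≤ y) (h2 : y < n * Y + n) : y / n = Y ∧ y % n = y - n * Y := by
  have e : y = (y - n * Y) + n * Y := by ring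
  constructor
  · rw [e, Int.add_mul_ediv_left _ _ hn.ne', Int.ediv_eq_zero_of_lt (by omega) (by omega), zero_add]
  · conv_lhs => rw [e]
    rw [Int.add_mul_emod_self_left, Int.emod_eq_of_lt (by omega) (by omega)]

lemma a_row (h0 : 0 ≤ Y) (h1 : Y < H) (k1 : n * Y ≤ y) (k2 : y < n * Y + n) :
    n * A Y - 1 ≤ D.a y ∧ D.a y ≤ n * A Y := by
  have hr := row_h C h0 h1
  have e := (row_div C.pos k1 k2).1
  have h3 := C.a_le (y := y) (by omega) (by omega)
  rw [e] at h3
  exact h3

lemma a_up0 (h0 : 0 ≤ Y) (h1 : Y < H) (hf : Y = 0 ∨ A Y < A (Y - 1)) (k1 : n * Y ≤ y)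
    (k2 : y + 2 ≤ n * Y + n) : D.a y = n * A Y := by
  have hr := row_h C h0 h1
  obtain ⟨e1, e2⟩ := row_div C.pos k1 (by omega)
  rcases C.a y (by omega) (by omega) with g | ⟨g, ⟨g1, g2, g3⟩ | ⟨g1, g2, g3⟩⟩
  · rw [g, e1]
  · omega
  · rw [e1] at g2 g3; omega

lemma a_dn0 (h0 : 0 ≤ Y) (h1 : Y < H) (hf : Y + 1 = H ∨ A Y < A (Y + 1)) (k1 : n * Y + 1 ≤ y)
    (k2 : y + 1 ≤ n * Y + n) : D.a y = n * A Y := by
  have hr := row_h C h0 h1
  obtain ⟨e1, e2⟩ := row_div C.pos (Y := Y) (y := y) (by omega) (by omega)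
  rcases C.a y (by omega) (by omega) with g | ⟨g, ⟨g1, g2, g3⟩ | ⟨g1, g2, g3⟩⟩
  · rw [g, e1]
  · rw [e1] at g2 g3; omega
  · omega

lemma w_row (h0 : 0 ≤ Y) (h1 : Y < H) : n * A Y + n ≤ D.w := by
  have hn := C.pos
  have := C.AW Y h0 h1
  have hw := Pool.Agent.H2.W.CG.w_ge C
  have e : n * (A Y + 1) = n * A Y + n := by ring
  have : n * (A Y + 1) ≤ n * W := mul_le_mul_of_nonneg_left (by omega) hn.le
  omega

lemma lt_A {Z : ℤ} (h : A Y < A Z) : n * A Y + n ≤ n * A Z := by
  have hn := C.pos
  have e : n * (A Y + 1) = n * A Y + n := by ring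
  have : n * (A Y + 1) ≤ n * A Z := mul_le_mul_of_nonneg_left (by omega) hn.le
  omega

end rows

lemma iS_neg (sd : Bool) (h : Y < 0) : iS D s0 n H sd Y = rep D s0 0 := by
  unfold iS qS; rw [if_pos h]

lemma iS_top (sd : Bool) (h0 : ¬ Y < 0) (h : H ≤ Y) : iS D s0 n H sd Y = rep D s0 (D.h + 1) := by
  unfold iS qS; rw [if_neg h0, if_pos h]

lemma arc_bot (h : y < 0) : arc D p s0 x y = rep D s0 0 := by
  unfold arc ps; rw [if_pos h]

lemma arc_top (h : D.h ≤ y) : arc D p s0 x y = rep D s0 (D.h + 1) := by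
  have := D.hh
  unfold arc ps; rw [if_neg (by omega), if_pos h]

lemma arc_lf (h0 : 0 ≤ y) (h1 : y < D.h) (h2 : x < D.a y) :
    arc D p s0 x y = rep D s0 (2 * D.h + 1 - y) := by
  unfold arc ps; rw [if_neg (by omega), if_neg (by omega), if_pos h2]

lemma colp_lf (h0 : 0 ≤ y) (h1 : y < D.h) : colp D (2 * D.h + 1 - y) = D.cl y := by
  unfold colp
  rw [Int.emod_eq_of_lt (by omega) (by unfold nP; omega), colq_cl (by omega)]
  congr 1
  omega

/-- neighbouring rows of one colour -/
lemma rep_lf (hcut : colp D (s0 - 1) ≠ colp D s0) (h0 : 0 ≤ y) (h1 : y + 1 < D.h)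
    (hc : D.cl y = D.cl (y + 1)) :
    rep D s0 (2 * D.h + 1 - (y + 1)) = rep D s0 (2 * D.h + 1 - y) := by
  have h := rep_adj (D := D) (s := 2 * D.h + 1 - (y + 1)) hcut (by
    rw [show 2 * D.h + 1 - (y + 1) + 1 = 2 * D.h + 1 - y by ring, colp_lf (by omega) h1,
      colp_lf h0 (by omega), hc])
  rw [show 2 * D.h + 1 - (y + 1) + 1 = 2 * D.h + 1 - y by ring] at h
  exact h.symm

/-! ### The diagonal tile -/

lemma pos_tpf : Pool.Agent.H54.W.Pos D (tp D false) := by
  have e : tp D false = D.a := by
    funext y; unfold tp; rw [if_neg Bool.false_ne_true]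
  rw [e]
  exact Pool.Agent.H54.W.pos_left D

lemma tpf (y : ℤ) : tp D false y = D.a y := by unfold tp; rw [if_neg Bool.false_ne_true]

lemma tpt (y : ℤ) : tp D true y = D.w := by unfold tp; rw [if_pos rfl]

lemma dg_TB (htb : D.TB (tp D false) x y) (hz : D.InZ x y) {gx gy : ℤ}
    (hpar : (x + y) % 2 = (gx + gy) % 2) : ¬ D.InE (tp D false) x y ∧
      ∀ c, ev (gx, gy) = c → ¬ (D.InO (tp D false) x y ↔ c = true) := by
  have hni := TB.not_InE pos_tpf htb
  refine ⟨hni, ?_⟩
  intro c hev hiff
  have hO : D.InO (tp D false) x y ↔ (x + y) % 2 = 1 := by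
    unfold InO
    constructor
    · rintro ⟨-, -, h | h | h⟩
      · exact absurd htb (TA.not_TB pos_tpf h.1)
      · exact h.2
      · exact absurd htb h.2.1
    · intro h
      exact ⟨hz, hni, Or.inr (Or.inl ⟨htb, h⟩)⟩
  rw [hO] at hiff
  cases c
  · rw [ev_false] at hev
    simp only [Bool.false_eq_true, iff_false] at hiff
    omega
  · rw [ev_true] at hev
    simp only [iff_true] at hiff
    omega

lemma dg_TA (hta : D.TA (tp D false) x y) (hz : D.InZ x y) {gx gy : ℤ}
    (hpar : (x + y) % 2 ≠ (gx + gy) % 2) : ¬ D.InE (tp D false) x y ∧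
      ∀ c, ev (gx, gy) = c → ¬ (D.InO (tp D false) x y ↔ c = true) := by
  have hni := TA.not_InE pos_tpf hta
  refine ⟨hni, ?_⟩
  intro c hev hiff
  have hO : D.InO (tp D false) x y ↔ (x + y) % 2 = 0 := by
    unfold InO
    constructor
    · rintro ⟨-, -, h | h | h⟩
      · exact h.2
      · exact absurd h.1 (TA.not_TB pos_tpf hta)
      · exact absurd hta h.1
    · intro h
      exact ⟨hz, hni, Or.inl ⟨hta, h⟩⟩
  rw [hO] at hiff
  cases c
  · rw [ev_false] at hev
    simp only [Bool.false_eq_true, iff_false] at hiff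
    omega
  · rw [ev_true] at hev
    simp only [iff_true] at hiff
    omega

lemma dg_t (hx : x + 2 < D.w) (hU : ¬ D.InU x y) (hz : D.InZ x y) : ¬ D.InE (tp D true) x y ∧
    (D.InO (tp D true) x y ↔ D.fill x y = true) := by
  have hni : ¬ D.InE (tp D true) x y := by
    rintro (h | h | h | h | h)
    · exact hU h
    · have := h.2.2.1; rw [tpt] at this; omega
    · have := h.2.2.1; rw [tpt] at this; omega
    · have := h.2.1; rw [tpt] at this; omega
    · have := h.2.1; rw [tpt] at this; omega
  have hta : ¬ D.TA (tp D true) x y := by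
    rintro (h | h)
    · have := h.2.2.1; rw [tpt, tpt] at this; omega
    · have := h.2; rw [tpt] at this; omega
  have htb : ¬ D.TB (tp D true) x y := by
    rintro (h | h)
    · have := h.2.2.1; rw [tpt, tpt] at this; omega
    · have := h.2; rw [tpt] at this; omega
  refine ⟨hni, ?_⟩
  unfold InO
  constructor
  · rintro ⟨-, -, h | h | h⟩
    · exact absurd h.1 hta
    · exact absurd h.1 htb
    · exact h.2.2
  · intro h
    exact ⟨hz, hni, Or.inr (Or.inr ⟨hta, htb, h⟩)⟩

section C

variable (hC : CoarseRC D n H W A CL) (hcut : colp D (s0 - 1) ≠ colp D s0)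
include hC

/-- the colour of the side of a row -/
lemma col_iS (sd : Bool) (hsd : sd = true) : colp D (iS D s0 n H sd Y) = cS D n H sd Y := by
  have hn := hC.toCoarseR.pos
  have hn8 := hC.hn
  have hh := D.hh
  subst hsd
  unfold iS cS
  rw [colp_rep]
  unfold qS
  split_ifs with c1 c2
  · unfold colp
    rw [Int.zero_emod, colq_0]
  · unfold colp
    rw [Int.emod_eq_of_lt (by omega) (by unfold nP; omega), colq_t]
  · have hr := row_h hC.toCoarseR (Y := Y) (by omega) (by omega)
    exact colp_lf (by omega) (by omega)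
  · exact absurd rfl ‹_›

include hcut

/-- the arc of a row of tiles -/
lemma rep_row (h0 : 0 ≤ Y) (h1 : Y < H) (k1 : n * Y ≤ y) (k2 : y < n * Y + n) :
    rep D s0 (2 * D.h + 1 - y) = iS D s0 n H true Y := by
  have C := hC.toCoarseR
  have hn := C.pos
  have hr := row_h C h0 h1
  have key : ∀ k : ℕ, n * Y + (k : ℤ) < n * Y + n →
      rep D s0 (2 * D.h + 1 - (n * Y + (k : ℤ))) = rep D s0 (2 * D.h + 1 - n * Y) := by
    intro k
    induction k with
    | zero => intro _; simp
    | succ k ih =>
      intro hk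
      push_cast at hk ⊢
      rw [← ih (by omega), ← add_assoc]
      refine rep_lf hcut (by omega) (by omega) ?_
      rw [hC.cl _ (by omega) (by omega), hC.cl _ (by omega) (by omega),
        (row_div hn (Y := Y) (y := n * Y + (k : ℤ)) (by omega) (by omega)).1,
        (row_div hn (Y := Y) (y := n * Y + (k : ℤ) + 1) (by omega) (by omega)).1]
  have e1 := key (y - n * Y).toNat (by rw [Int.toNat_of_nonneg (by omega)]; omega)
  have e2 := key (n / 2).toNat (by rw [Int.toNat_of_nonneg (by omega)]; omega)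
  rw [Int.toNat_of_nonneg (by omega)] at e1 e2
  rw [show n * Y + (y - n * Y) = y by ring] at e1
  rw [e1, ← e2]
  unfold iS qS
  rw [if_neg (by omega), if_neg (by omega), if_pos rfl]

/-- arcs of the tiles at the left of the window -/
lemma arc_left (h0 : 0 ≤ Y) (h1 : Y < H) (k1 : n * Y ≤ y) (k2 : y < n * Y + n) (h2 : x < D.a y) :
    arc D p s0 x y = iS D s0 n H true Y := by
  have hr := row_h hC.toCoarseR h0 h1
  rw [arc_lf (by omega) (by omega) h2, rep_row hC hcut h0 h1 k1 k2]

/-- rows of equal length have the same arc -/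
lemma iS_succ (h0 : 0 ≤ Y) (h1 : Y + 1 < H) (he : A Y = A (Y + 1)) :
    iS D s0 n H true (Y + 1) = iS D s0 n H true Y := by
  have C := hC.toCoarseR
  have hn := C.pos
  have hn8 := C.hn
  have hr := row_h C h0 (by omega)
  have hr1 := row_h C (Y := Y + 1) (by omega) h1
  have e1 : n * (Y + 1) = n * Y + n := by ring
  have hd0 := row_div hn (Y := Y) (y := n * Y + n - 1) (by omega) (by omega)
  have hd1 := row_div hn (Y := Y + 1) (y := n * Y + n) (by omega) (by omega)
  have g0 : D.a (n * Y + n - 1) = n * A Y := by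
    rcases C.a (n * Y + n - 1) (by omega) (by omega) with g | ⟨g, ⟨g1, g2, g3⟩ | ⟨g1, g2, g3⟩⟩
    · rw [g, hd0.1]
    · rw [hd0.1] at g3; omega
    · omega
  have g1 : D.a (n * Y + n) = n * A (Y + 1) := by
    rcases C.a (n * Y + n) (by omega) (by omega) with g | ⟨g, ⟨g1, g2, g3⟩ | ⟨g1, g2, g3⟩⟩
    · rw [g, hd1.1]
    · omega
    · rw [hd1.1, add_sub_cancel_right] at g3; omega
  have hc := D.scl (n * Y + n - 1) (by omega) (by omega) (by rw [sub_add_cancel, g0, g1, he])
  have h := rep_lf hcut (y := n * Y + n - 1) (by omega) (by omega) hc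
  rw [sub_add_cancel, rep_row hC hcut (Y := Y + 1) (by omega) h1 (by omega) (by omega),
    rep_row hC hcut h0 (by omega) (by omega) (by omega)] at h
  exact h

/-- **The corner below the row `Y` of cells.** -/
theorem zc_LF (h0 : 0 ≤ Y) (h1 : Y < H) (hf : Y = 0 ∨ A Y < A (Y - 1)) :
    Zc D p s0 true true (n * A Y - sh p) (n * Y) (iS D s0 n H true Y) (iS D s0 n H true (Y - 1))
      (n - 2) := by
  have C := hC.toCoarseR
  have hn := C.pos
  have hn8 := C.hn
  have hr := row_h C h0 h1
  have hs0 := sh_nonneg p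
  have hs1 := sh_le p
  have ha : ∀ y, n * Y ≤ y → y + 2 ≤ n * Y + n → D.a y = n * A Y := fun y => a_up0 C h0 h1 hf
  have hw := w_row C h0 h1
  have e1 : n * (Y - 1) = n * Y - n := by ring
  have ha' : ∀ y, 0 < Y → n * Y - n ≤ y → y < n * Y → n * A Y + n - 1 ≤ D.a y := fun y k0 k1 k2 => by
    have h3 := (a_row C (Y := Y - 1) (y := y) (by omega) (by omega) (by omega) (by omega)).1
    have h4 := lt_A C (Y := Y) (Z := Y - 1) (by omega)
    omega
  have hY0 : 0 < Y → n ≤ n * Y := fun h => by
    have : n * 1 ≤ n * Y := mul_le_mul_of_nonneg_left (by omega) hn.le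
    omega
  have hYz : ¬ 0 < Y → n * Y = 0 := fun h => by rw [show Y = 0 by omega, mul_zero]
  have harc : ∀ x y, n * Y - 4 ≤ y → y < n * Y → x + 1 < n * A Y + n - 1 →
      arc D p s0 x y = iS D s0 n H true (Y - 1) := by
    intro x y k1 k2 k3
    by_cases hY : 0 < Y
    · have := ha' y hY (by omega) k2
      exact arc_left hC hcut (by omega) (by omega) (by omega) (by omega) (by omega)
    · have := hYz hY
      rw [iS_neg _ (by omega), arc_bot (by omega)]
  have haV : ∀ x y, n * Y ≤ y → y + 2 ≤ n * Y + n → x < n * A Y →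
      arc D p s0 x y = iS D s0 n H true Y := by
    intro x y k1 k2 k3
    have := ha y k1 k2
    exact arc_left hC hcut h0 h1 k1 (by omega) (by omega)
  have hlo := D.hlo (n * Y) (by omega) (by omega)
  rw [ha _ le_rfl (by omega)] at hlo
  have hdg : ¬ D.InE (tp D p) (n * A Y - sh p + -1) (n * Y + -1) ∧
      (ev (n * A Y - sh p, n * Y) = colp D (iS D s0 n H true Y) →
        colp D (iS D s0 n H true Y) ≠ colp D (iS D s0 n H true (Y - 1)) →
        ¬ (D.InO (tp D p) (n * A Y - sh p + -1) (n * Y + -1) ↔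
          colp D (iS D s0 n H true Y) = true)) := by
    have hz : D.InZ (n * A Y - sh p + -1) (n * Y + -1) := by
      unfold InZ
      omega
    rcases sh_cases p with ⟨rfl, hp⟩ | ⟨rfl, hp⟩
    · have htb : D.TB (tp D false) (n * A Y - sh false + -1) (n * Y + -1) := by
        have g1 := ha (n * Y) le_rfl (by omega)
        by_cases hY : 0 < Y
        · left
          have := ha' (n * Y + -1) hY (by omega) (by omega)
          have := hY0 hY
          rw [tpf, tpf, show n * Y + -1 + 1 = n * Y by ring]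
          omega
        · right
          have := hYz hY
          rw [this] at g1
          rw [tpf]
          omega
      have h := dg_TB htb hz (gx := n * A Y - sh false) (gy := n * Y) (by omega)
      exact ⟨h.1, fun hev _ => h.2 _ hev⟩
    · have hU : ¬ D.InU (n * A Y - sh true + -1) (n * Y + -1) := by
        rintro ⟨k1, k2, k3, k4⟩
        have hY : 0 < Y := by
          by_contra hc
          have := hYz hc
          omega
        have := ha' (n * Y + -1) hY (by omega) (by omega)
        omega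
      have h := dg_t (D := D) (by omega) hU hz
      refine ⟨h.1, fun _ hne hiff => ?_⟩
      have hcol : D.fill (n * A Y - sh true + -1) (n * Y + -1) =
          colp D (iS D s0 n H true (Y - 1)) := by
        rw [← harc (n * A Y - sh true + -1) (n * Y + -1) (by omega) (by omega) (by omega), colp_arc]
        rfl
      rw [h.2, hcol] at hiff
      revert hne hiff
      cases colp D (iS D s0 n H true Y) <;> cases colp D (iS D s0 n H true (Y - 1)) <;> simp
  refine ⟨?_, ?_, ?_, ?_, ?_, ?_, ?_, ?_, ?_, ?_, ?_, ?_⟩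
  · intro i j k1 k2 k3 k4
    rw [tX_t, tX_t, inP_iff]
    unfold PT
    by_cases hj : 0 ≤ j
    · have g1 := ha (n * Y + j) (by omega) (by omega)
      omega
    · by_cases hY : 0 < Y
      · have := ha' (n * Y + j) hY (by omega) (by omega)
        omega
      · have := hYz hY
        omega
  · intro j k1 k2
    rw [tX_t, tX_t, if_pos rfl]
    unfold LyA
    have g1 := ha (n * Y + j) (by omega) (by omega)
    have g2 := ha (n * Y + j + 1) (by omega) (by omega)
    refine ⟨by omega, by omega, by omega, ?_, by omega⟩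
    intro k3
    by_cases k4 : 1 ≤ j
    · have := ha (n * Y + j - 1) (by omega) (by omega); omega
    · have k5 : 0 < Y := by
        by_contra hc
        have := hYz hc
        omega
      have := ha' (n * Y + j - 1) k5 (by omega) (by omega)
      omega
  · intro i k1 k2
    rw [tX_t, tX_t, if_pos rfl]
    unfold LyA
    have g1 := ha (n * Y) le_rfl (by omega)
    refine ⟨by omega, by omega, ?_, by omega, ?_⟩
    · rw [show n * Y + -1 + 1 = n * Y by ring]; omega
    · intro k3
      have k5 : 0 < Y := by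
        by_contra hc
        have := hYz hc
        omega
      have := ha' (n * Y + -1) k5 (by omega) (by omega)
      omega
  · intro j k1 k2
    rw [tX_t, tX_t]
    exact haV _ _ (by omega) (by omega) (by omega)
  · intro j k1 k2
    rw [tX_t, tX_t]
    exact haV _ _ (by omega) (by omega) (by omega)
  · intro i k1 k2
    rw [tX_t, tX_t]
    exact harc _ _ (by omega) (by omega) (by omega)
  · intro i k1 k2
    rw [tX_t, tX_t]
    exact harc _ _ (by omega) (by omega) (by omega)
  · rw [tX_t, tX_t]
    exact harc _ _ (by omega) (by omega) (by omega)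
  · rw [tX_t, tX_t]
    exact harc _ _ (by omega) (by omega) (by omega)
  · rw [tX_t]
    omega
  · rw [tX_t, tX_t]
    exact hdg.1
  · intro hev hne hiff
    rw [tX_t, tX_t] at hiff
    exact hdg.2 hev hne hiff

/-- **The corner above the row `Y` of cells.** -/
theorem zc_LC (h0 : 0 ≤ Y) (h1 : Y < H) (hf : Y + 1 = H ∨ A Y < A (Y + 1)) :
    Zc D p s0 true false (n * A Y - sh p) (n * Y + n) (iS D s0 n H true Y)
      (iS D s0 n H true (Y + 1)) (n - 2) := by
  have C := hC.toCoarseR
  have hn := C.pos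
  have hn8 := C.hn
  have hr := row_h C h0 h1
  have hs0 := sh_nonneg p
  have hs1 := sh_le p
  have ha : ∀ y, n * Y + 1 ≤ y → y + 1 ≤ n * Y + n → D.a y = n * A Y := fun y => a_dn0 C h0 h1 hf
  have hw := w_row C h0 h1
  have e1 : n * (Y + 1) = n * Y + n := by ring
  have ha' : ∀ y, Y + 1 < H → n * Y + n ≤ y → y < n * Y + n + n → n * A Y + n - 1 ≤ D.a y :=
    fun y k0 k1 k2 => by
    have h3 := (a_row C (Y := Y + 1) (y := y) (by omega) (by omega) (by omega) (by omega)).1
    have h4 := lt_A C (Y := Y) (Z := Y + 1) (by omega)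
    omega
  have hY0 : Y + 1 < H → n * Y + n + n ≤ D.h := fun h => by
    have := row_h C (Y := Y + 1) (by omega) h
    omega
  have hYz : ¬ Y + 1 < H → n * Y + n = D.h := fun h => by
    rw [C.hh, show H = Y + 1 by omega, e1]
  have harc : ∀ x y, n * Y + n ≤ y → y < n * Y + n + 4 → x + 1 < n * A Y + n - 1 →
      arc D p s0 x y = iS D s0 n H true (Y + 1) := by
    intro x y k1 k2 k3
    by_cases hY : Y + 1 < H
    · have := ha' y hY k1 (by omega)
      exact arc_left hC hcut (by omega) (by omega) (by omega) (by omega) (by omega)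
    · have := hYz hY
      rw [iS_top _ (by omega) (by omega), arc_top (by omega)]
  have haV : ∀ x y, n * Y + 1 ≤ y → y + 1 ≤ n * Y + n → x < n * A Y →
      arc D p s0 x y = iS D s0 n H true Y := by
    intro x y k1 k2 k3
    have := ha y k1 k2
    exact arc_left hC hcut h0 h1 (by omega) (by omega) (by omega)
  have hlo := D.hlo (n * Y + n - 1) (by omega) (by omega)
  rw [ha _ (by omega) (by omega)] at hlo
  have hdg : ¬ D.InE (tp D p) (n * A Y - sh p + -1) (n * Y + n) ∧
      (ev (n * A Y - sh p, n * Y + n) = colp D (iS D s0 n H true Y) →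
        colp D (iS D s0 n H true Y) ≠ colp D (iS D s0 n H true (Y + 1)) →
        ¬ (D.InO (tp D p) (n * A Y - sh p + -1) (n * Y + n) ↔
          colp D (iS D s0 n H true Y) = true)) := by
    have hz : D.InZ (n * A Y - sh p + -1) (n * Y + n) := by
      unfold InZ
      omega
    rcases sh_cases p with ⟨rfl, hp⟩ | ⟨rfl, hp⟩
    · have hta : D.TA (tp D false) (n * A Y - sh false + -1) (n * Y + n) := by
        have g1 := ha (n * Y + n - 1) (by omega) (by omega)
        by_cases hY : Y + 1 < H
        · left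
          have := ha' (n * Y + n) hY (by omega) (by omega)
          have := hY0 hY
          rw [tpf, tpf]
          omega
        · right
          have := hYz hY
          rw [this] at g1
          rw [tpf]
          omega
      have h := dg_TA hta hz (gx := n * A Y - sh false) (gy := n * Y + n) (by omega)
      exact ⟨h.1, fun hev _ => h.2 _ hev⟩
    · have hU : ¬ D.InU (n * A Y - sh true + -1) (n * Y + n) := by
        rintro ⟨k1, k2, k3, k4⟩
        have hY : Y + 1 < H := by
          by_contra hc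
          have := hYz hc
          omega
        have := ha' (n * Y + n) hY (by omega) (by omega)
        omega
      have h := dg_t (D := D) (by omega) hU hz
      refine ⟨h.1, fun _ hne hiff => ?_⟩
      have hcol : D.fill (n * A Y - sh true + -1) (n * Y + n) =
          colp D (iS D s0 n H true (Y + 1)) := by
        rw [← harc (n * A Y - sh true + -1) (n * Y + n) (by omega) (by omega) (by omega), colp_arc]
        rfl
      rw [h.2, hcol] at hiff
      revert hne hiff
      cases colp D (iS D s0 n H true Y) <;> cases colp D (iS D s0 n H true (Y + 1)) <;> simp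
  have u1 : n * Y + n - 1 - -1 = n * Y + n := by ring
  have u2 : n * Y + n - 1 - -2 = n * Y + n + 1 := by ring
  refine ⟨?_, ?_, ?_, ?_, ?_, ?_, ?_, ?_, ?_, ?_, ?_, ?_⟩
  · intro i j k1 k2 k3 k4
    rw [tX_t, tX_f, inP_iff]
    unfold PT
    by_cases hj : 0 ≤ j
    · have g1 := ha (n * Y + n - 1 - j) (by omega) (by omega)
      omega
    · by_cases hY : Y + 1 < H
      · have := ha' (n * Y + n - 1 - j) hY (by omega) (by omega)
        omega
      · have := hYz hY
        omega
  · intro j k1 k2
    rw [tX_t, tX_f, if_pos rfl]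
    unfold LyA
    have g1 := ha (n * Y + n - 1 - j) (by omega) (by omega)
    have g2 := ha (n * Y + n - 1 - j - 1) (by omega) (by omega)
    refine ⟨by omega, by omega, by omega, by omega, ?_⟩
    intro k3
    by_cases k4 : 1 ≤ j
    · have := ha (n * Y + n - 1 - j + 1) (by omega) (by omega); omega
    · have k5 : Y + 1 < H := by
        by_contra hc
        have := hYz hc
        omega
      have := ha' (n * Y + n - 1 - j + 1) k5 (by omega) (by omega)
      omega
  · intro i k1 k2
    rw [tX_t, tX_f, if_neg Bool.false_ne_true, u1]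
    unfold LyA
    have g1 := ha (n * Y + n - 1) (by omega) (by omega)
    refine ⟨by omega, by omega, by omega, by omega, ?_⟩
    intro k3
    have k5 : Y + 1 < H := by
      by_contra hc
      have := hYz hc
      omega
    have := ha' (n * Y + n) k5 (by omega) (by omega)
    omega
  · intro j k1 k2
    rw [tX_t, tX_f]
    exact haV _ _ (by omega) (by omega) (by omega)
  · intro j k1 k2
    rw [tX_t, tX_f]
    exact haV _ _ (by omega) (by omega) (by omega)
  · intro i k1 k2
    rw [tX_t, tX_f]
    exact harc _ _ (by omega) (by omega) (by omega)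
  · intro i k1 k2
    rw [tX_t, tX_f]
    exact harc _ _ (by omega) (by omega) (by omega)
  · rw [tX_t, tX_f]
    exact harc _ _ (by omega) (by omega) (by omega)
  · rw [tX_t, tX_f]
    exact harc _ _ (by omega) (by omega) (by omega)
  · rw [tX_t]
    omega
  · rw [tX_t, tX_f, u1]
    exact hdg.1
  · intro hev hne hiff
    rw [tX_t, tX_f, u1] at hiff
    exact hdg.2 hev hne hiff

end C

end Pool.Agent.H27.W.N
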