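import Mathlib
import Pool.Agent.H27.W.Zc
import Pool.Agent.H27.W.Zn

set_option autoImplicit false
open Finset

/-! # The marked corners of a coarse window with a flat right wall

Successor of `H40/Sp/Zg`. `zn_c` : the geometry near a marked corner, in the chart. -/

namespace Pool.Agent.H27.W.N

open Pool.Agent.H75.Perc Pool.Agent.H75.TwoArm Pool.Agent.Q1 Pool.Agent.H33.Q1
open Pool.Agent.H69.Q1
open Pool.Agent.H54.W (Win)
open Pool.Agent.H54.W.Win
open Pool.Agent.H72.W.N
open Pool.Agent.H40.W.N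
open Pool.Agent.H42.Sp (Sd Ix kt rt kt_odd rt_even kt_Tg rt_Tg)
open Pool.Agent.H13.R45 (ev gp ev_true ev_false Tg)
open Pool.Agent.H40.Sp (tX pX oT oP oT_tX tX_oT oP_pX pX_oP chQ chQ_UV chQ_lt chQ_gp eS flS yV yH)
open Pool.Agent.H95.W (CoarseR CoarseRC)

variable {D : Win} {n H W : ℤ} {A B : ℤ → ℤ} {CL : ℤ → Bool} {p : Bool}
  {s0 x y Y i j L N gx gy iV iH iL iF : ℤ} {v1 v2 w : Bool} {S : Finset (ℤ × ℤ)}

/-- the diagonal tile if its neighbour is in the fill of `iL` -/
lemma Zn.fz_diag (Z : Zn D p s0 v1 v2 w gx gy iL iF N) (hL : 5 ≤ L) (hN : 4 ≤ N)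
    (ha : arc D p s0 (tq v1 v2 w gx gy (-2) (-1)).1 (tq v1 v2 w gx gy (-2) (-1)).2 = iL)
    (hs : lt (tq v1 v2 w gx gy (-1) (-1)) ∈ S ↔ colp D iL = true) :
    FzA D p s0 L S iL (tq v1 v2 w gx gy (-1) (-1)).1 (tq v1 v2 w gx gy (-1) (-1)).2 := by
  have hB := Z.inB (i := -2) (j := -1) (by omega) (by omega) (by omega) (by omega) (by omega)
  refine ⟨Z.fz11 hN, hs, gq v1 v2 w gx gy (-1) (-1), ?_, onT_q.2 (by omega), _, _,
    ⟨InL_of_InB hL hB, ?_, ha, fun _ => hB⟩, (onT_q (i := -2) (j := -1)).2 (by omega)⟩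
  · rw [Z.evGL]; omega
  · exact Z.fill (by omega) (by omega) (by omega) (by omega) (by omega)

namespace Zc

variable (Z : Zc D p s0 v1 v2 gx gy iV iH N)
include Z

lemma zn_t (he : ev (gx, gy) = colp D iV) (hne : colp D iV ≠ colp D iH) :
    Zn D p s0 v1 v2 true gx gy iV iH N where
  evL := he
  colF := by revert hne; cases colp D iV <;> cases colp D iH <;> simp
  inP := Z.inP
  lyL := Z.lyV
  lyF := Z.lyH
  aL1 := Z.aV1
  aL2 := Z.aV2
  aF1 := Z.aH1
  aF2 := Z.aH2
  aD := Or.inr Z.a21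

lemma zn_f (he : ev (gx, gy) ≠ colp D iV) (hne : colp D iV ≠ colp D iH) :
    Zn D p s0 v1 v2 false gx gy iH iV N where
  evL := by
    revert he hne; cases colp D iV <;> cases colp D iH <;> cases ev (gx, gy) <;> simp
  colF := by revert hne; cases colp D iV <;> cases colp D iH <;> simp
  inP := fun i j h1 h2 h3 h4 => by
    have := Z.inP j i h3 h4 h1 h2
    exact this.trans and_comm
  lyL := Z.lyH
  lyF := Z.lyV
  aL1 := Z.aH1
  aL2 := Z.aH2
  aF1 := Z.aV1
  aF2 := Z.aV2
  aD := Or.inl Z.a12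

lemma hd_t (he : ev (gx, gy) = colp D iV) (hne : colp D iV ≠ colp D iH)
    (hN : 4 ≤ N) (hS : NatS D p S)
    (hs : lt (tq v1 v2 true gx gy (-1) (-1)) ∈ S ↔ colp D iV = true) :
    FzA D p s0 L S iV (tq v1 v2 true gx gy (-1) (-1)).1 (tq v1 v2 true gx gy (-1) (-1)).2 := by
  have Z' := Z.zn_t he hne
  exfalso
  have h1 := hS _ _ (Or.inl Z.nw) (Z'.fz11 hN) Z.ni
  exact Z.no he hne (h1.symm.trans hs)

lemma hd_f (he : ev (gx, gy) ≠ colp D iV) (hne : colp D iV ≠ colp D iH) (hL : 5 ≤ L)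
    (hN : 4 ≤ N)
    (hs : lt (tq v1 v2 false gx gy (-1) (-1)) ∈ S ↔ colp D iH = true) :
    FzA D p s0 L S iH (tq v1 v2 false gx gy (-1) (-1)).1 (tq v1 v2 false gx gy (-1) (-1)).2 :=
  (Z.zn_f he hne).fz_diag hL hN Z.a12 hs

end Zc

section C

variable (hC : CoarseRC D n H W A CL) (hcut : colp D (s0 - 1) ≠ colp D s0)
include hC hcut

/-- **The geometry near a marked corner.** -/
theorem zc_c {c : Bool × ℤ} (hc : c ∈ GmC D n H) :
    Zc D p s0 c.1 (flS H A B c) (gxS p n H A B c) (gyS n c) (iVs D s0 n H A B c)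
      (iHs D s0 n H A B c) (n - 2) ∧
    colp D (iVs D s0 n H A B c) ≠ colp D (iHs D s0 n H A B c) := by
  obtain ⟨sd, Y⟩ := c
  obtain ⟨h1, h3, h2⟩ := mem_GmC.1 hc
  simp only at h1 h2 h3
  subst h1
  have hH : 0 < H := hC.HH
  have hcol := fun Y => col_iS (s0 := s0) (Y := Y) hC true rfl
  have hne : colp D (iS D s0 n H true (Y - 1)) ≠ colp D (iS D s0 n H true Y) := by
    rw [hcol, hcol]; exact h2
  unfold gxS gyS iVs iHs yV yH eS
  rcases hf : flS H A B (true, Y) with _ | _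
  · have hf' : ¬ (Y = 0 ∨ (Y < H ∧ A Y < A (Y - 1))) := by
      unfold flS at hf
      simpa using of_decide_eq_false hf
    simp only [Bool.false_eq_true, if_false, if_true]
    rw [not_or, not_and] at hf'
    obtain ⟨hY0, hf1⟩ := hf'
    refine ⟨?_, hne⟩
    have e1 : n * Y = n * (Y - 1) + n := by ring
    have key : ¬ (Y < H ∧ A (Y - 1) = A Y) := by
      rintro ⟨k1, k2⟩
      apply hne
      have := iS_succ (Y := Y - 1) hC hcut (by omega) (by omega)
        (by rw [sub_add_cancel]; exact k2)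
      rw [sub_add_cancel] at this
      rw [this]
    have := zc_LC (Y := Y - 1) (p := p) hC hcut (by omega) (by omega) (by
      rw [sub_add_cancel]
      by_cases c : Y < H
      · right
        have := hf1 c
        by_contra hc
        exact key ⟨c, by omega⟩
      · left; omega)
    rw [sub_add_cancel, ← e1] at this
    exact this
  · have hf' : (Y = 0 ∨ (Y < H ∧ A Y < A (Y - 1))) := by
      unfold flS at hf
      simpa using of_decide_eq_true hf
    simp only [if_true]
    refine ⟨?_, hne.symm⟩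
    exact zc_LF (p := p) hC hcut (by omega) (by omega) (by tauto)

/-- **The geometry near a marked corner, in the chart.** -/
theorem zn_c {c : Bool × ℤ} (hc : c ∈ GmC D n H) (hL : 5 ≤ L) (hn : 6 ≤ n) (hS : NatS D p S) :
    Zn D p s0 c.1 (flS H A B c) (wS D p n H A B c) (gxS p n H A B c) (gyS n c)
      (iLs D p s0 n H A B c) (iFs D p s0 n H A B c) (n - 2) ∧
    ((lt (tq c.1 (flS H A B c) (wS D p n H A B c) (gxS p n H A B c) (gyS n c) (-1) (-1)) ∈ S ↔
        colp D (iLs D p s0 n H A B c) = true) →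
      FzA D p s0 L S (iLs D p s0 n H A B c)
        (tq c.1 (flS H A B c) (wS D p n H A B c) (gxS p n H A B c) (gyS n c) (-1) (-1)).1
        (tq c.1 (flS H A B c) (wS D p n H A B c) (gxS p n H A B c) (gyS n c) (-1) (-1)).2) := by
  obtain ⟨Z, hne⟩ := zc_c (p := p) (B := B) hC hcut hc
  have hcol : colp D (iVs D s0 n H A B c) = cS D n H c.1 (yV H A B c) := by
    unfold iVs; exact col_iS hC c.1 (mem_GmC.1 hc).1
  rcases hw : wS D p n H A B c with _ | _
  · have he : ev (gxS p n H A B c, gyS n c) ≠ colp D (iVs D s0 n H A B c) := by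
      unfold wS at hw
      rw [hcol]
      simpa using hw
    have e1 : iLs D p s0 n H A B c = iHs D s0 n H A B c := by
      unfold iLs; rw [hw, if_neg Bool.false_ne_true]
    have e2 : iFs D p s0 n H A B c = iVs D s0 n H A B c := by
      unfold iFs; rw [hw, if_neg Bool.false_ne_true]
    rw [e1, e2]
    exact ⟨Z.zn_f he hne, Z.hd_f he hne hL (by omega)⟩
  · have he : ev (gxS p n H A B c, gyS n c) = colp D (iVs D s0 n H A B c) := by
      unfold wS at hw
      rw [hcol]
      simpa using hw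
    have e1 : iLs D p s0 n H A B c = iVs D s0 n H A B c := by
      unfold iLs; rw [hw, if_pos rfl]
    have e2 : iFs D p s0 n H A B c = iHs D s0 n H A B c := by
      unfold iFs; rw [hw, if_pos rfl]
    rw [e1, e2]
    exact ⟨Z.zn_t he hne, Z.hd_t he hne (by omega) hS⟩

end C

end Pool.Agent.H27.W.N
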