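import Mathlib
import Pool.Agent.H27.W.Zg
import Pool.Agent.H60.W.C.Fww
import Pool.Agent.H95.W.N.WeD
import Pool.Agent.H27.W.CnrX

set_option autoImplicit false
open Finset

/-! # Marked corners and walls of the left arc

Successor of `H40/Sp/LnkX`. `surX` : the surrounding property. `lnkX` : ties near a marked corner are near an end
of their wall. -/

namespace Pool.Agent.H27.W.N

open Pool.Agent.H75.Perc Pool.Agent.H75.TwoArm Pool.Agent.Q1 Pool.Agent.H33.Q1
open Pool.Agent.H69.Q1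
open Pool.Agent.H54.W (Win)
open Pool.Agent.H54.W.Win
open Pool.Agent.H72.W.N
open Pool.Agent.H40.W.N
open Pool.Agent.H42.Sp (Sd Ix kt rt kt_odd rt_even kt_Tg rt_Tg)
open Pool.Agent.H13.R45 (ev gp ev_true ev_false Tg)
open Pool.Agent.H40.Sp (tX pX oT oP oT_tX tX_oT oP_pX pX_oP chQ chQ_UV chQ_lt chQ_gp eS flS yV yH)
open Pool.Agent.H95.W (CoarseR CoarseRC)
open Pool.Agent.H31.Sp (verS)
open Pool.Agent.H95.W.N (Coarse KL wlD fwD x0D ND epD hqD bW lnW poD poD_tie FlD)
open Pool.Agent.H60.W.N (EdgA end_D)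
open Pool.Agent.H99.NC (inR)
open Pool.Agent.H60.Q1 (wp)
open Pool.Agent.H39.Q1 (gm)
open Pool.Agent.H44.FM.AsmW (TW mem_TW)
open Pool.Agent.H39.Q1 (FarM nd el cU cV cx cy VN av nd_el TF mem_TF)

variable {D : Win} {n H W : ℤ} {A B : ℤ → ℤ} {CL : ℤ → Bool} {p : Bool}
  {s0 L h : ℤ} {S Bx : Finset (ℤ × ℤ)} {O : OutB D}

/-- the surrounding property -/
theorem surX (hC : CoarseRC D n H W A CL) (hcut : colp D (s0 - 1) ≠ colp D s0)
    (hNat : NatS D p S) (hL : 5 ≤ L) (hh : 1 ≤ h) (hn : 3 * h + 8 ≤ n) :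
    ∀ c ∈ GmC D n H, ∀ ρ ≤ h, ∀ ω, (kS D p n H A B c).Sur ρ
      (LQ c.1 (flS H A B c) (wS D p n H A B c) (gxS p n H A B c) (gyS n c) h (2 * h + 2)) ω := by
  intro c hc ρ hρ ω
  obtain ⟨Z, -⟩ := zn_c (p := p) (B := B) hC hcut hc hL (by omega) hNat
  exact Z.surQ hh rfl (by omega) hρ ω

/-- ties near a marked corner are near an end of their wall -/
theorem lnkX (hE : EdgA D n H A B p s0) (C : Coarse D n H A B) (hn : 16 ≤ n) (w0 : KL H A B) :
    ∀ c ∈ GmC D n H, ∀ e ∈ TA D p, ∀ ρ : ℤ, 8 ≤ ρ →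
    (0 ≤ (kS D p n H A B c).U (nd (colp D (fmA D p s0 e)) (bA D p e)) ∧
      (kS D p n H A B c).U (nd (colp D (fmA D p s0 e)) (bA D p e)) ≤ 2 * ρ) →
    (0 ≤ (kS D p n H A B c).V (nd (colp D (fmA D p s0 e)) (bA D p e)) ∧
      (kS D p n H A B c).V (nd (colp D (fmA D p s0 e)) (bA D p e)) ≤ 2 * ρ) →
    ∃ τ : ℤ, (τ = 0 ∨ τ = ND D n H A B p s0 (wlD D n H A B p w0 e)) ∧
      inR (wp 1 (x0D D n H A B p s0 (wlD D n H A B p w0 e)) τ) (2 * ρ)
        (gm (epD H A B (wlD D n H A B p w0 e)) (bA D p e)) := by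
  intro c _ e he ρ hρ hU hV
  have hq := fun w => hqD (p := p) C hn w
  set w := wlD D n H A B p w0 e with hw
  have hfl : e ∉ FlD D n H A B p w0 (ρ + 1) w := by
    intro hf
    unfold FlD at hf
    obtain ⟨-, -, h1, h2⟩ := mem_filter.1 hf
    obtain ⟨u, v, s, cc, rfl, hT⟩ := exists_tie he
    obtain ⟨k5, k6, k7, k8⟩ := hE.tie' w0 hT
    rw [← hw] at k5
    rw [poD_tie hT] at h1 h2
    rw [hT.co, hT.b] at hU hV
    have hUV := chQ_gp (v1 := c.1) (v2 := flS H A B c) (w := wS D p n H A B c)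
      (gx := gxS p n H A B c) (gy := gyS n c) (ev_bt (k := s) (c := cc) hT.odd)
    unfold kS at hU hV
    rw [hUV.1] at hU
    rw [hUV.2] at hV
    set g := bt s cc (u, v) with hg
    have hx : |g.1 - gxS p n H A B c| ≤ ρ ∧ |g.2 - gyS n c| ≤ ρ := by
      unfold oP at hU hV
      constructor
      · rw [abs_le]
        split_ifs at hU hV <;> omega
      · rw [abs_le]
        split_ifs at hU hV <;> omega
    rw [abs_le, abs_le] at hx
    have hn0 : 0 < n := by omega
    unfold bW at h1 h2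
    rw [k5] at h1 h2
    unfold gxS gyS at hx
    have key : ∀ a b z : ℤ, n * a - ρ ≤ z → z ≤ n * a + ρ → n * b + (ρ + 1) ≤ z →
        z + (ρ + 1) ≤ n * b + n → False := by
      intro a b z g1 g2 g3 g4
      have g5 : b < a := by
        by_contra hc
        have : n * a ≤ n * b := mul_le_mul_of_nonneg_left (by omega) hn0.le
        omega
      have : n * (b + 1) ≤ n * a := mul_le_mul_of_nonneg_left (by omega) hn0.le
      have e : n * (b + 1) = n * b + n := by ring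
      omega
    rcases hv : verS s with _ | _
    · simp only [hv, Bool.false_eq_true, if_false] at h1 h2
      exact key (eS A B c.1 (yV H A B c)) w.1.2.1 (g.1 + sh p) (by omega) (by omega) (by omega)
        (by omega)
    · simp only [hv, if_true] at h1 h2
      exact key c.2 w.1.2.2 g.2 (by omega) (by omega) (by omega) (by omega)
  rcases end_D hE hq w0 w (r := ρ + 1) (ρ := 2 * ρ) (by omega) (mem_TW.2 ⟨he, hw.symm⟩) hfl
    with h1 | h1
  · exact ⟨0, Or.inl rfl, h1⟩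
  · exact ⟨_, Or.inr rfl, h1⟩

end Pool.Agent.H27.W.N
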