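import Mathlib
import Pool.Agent.H14.W.NMink
import Pool.Agent.H54.W.Make
import Pool.Agent.H21.W.RoomIn

set_option autoImplicit false
open Finset

/-! # Natural windows and rooms: regions and colours

`FarG` : the tile is off the small squares at the corners (helper31's `FarC`). `pt_rp` : the window of coarse data is
the room, off the corners. `epn_rp0`, `epn_rp` : the window with one kind of walls pushed out is the union of the
room and its translate. `natc_fill` : the colours. -/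

namespace Pool.Agent.H27.W.G

open Pool.Agent.H54.W (Win CD)
open Pool.Agent.H42.Sp (Sd)
open Pool.Agent.H72.W.N (PT LyP natc natc_def sh sh_nonneg sh_le InP InB)
open Pool.Agent.H14.W (SQ BX EPn cns mem_cns CorL EPn_mink EPn_one dx dy ofRC CoarseD)
open Pool.Agent.H21.W (RP fillC)

variable {C : CD} {n : ℤ} {he : n % 2 = 0} {h8 : 8 ≤ n} {cr : ℤ → Bool} {p : Bool} {x y X Y : ℤ}
  {k : Sd}

/-- the tile is off the small squares at the corners -/
def FarG (D : Win) (n H : ℤ) (A : ℤ → ℤ) (x y : ℤ) : Prop :=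
  ∀ c ∈ cns D n H A, ¬ SQ D 4 c.1 c.2 x y

/-- a notch is next to a corner -/
lemma nt_cns (hn : 0 < n) (h0 : 0 ≤ y) (h1 : y < n * C.H) (h : C.Nt n y) :
    ∃ c ∈ cns (C.win n he h8 cr) n C.H C.A, c.1 = n * C.A (y / n) ∧ (c.2 = y ∨ c.2 = y + 1) := by
  have hr := CD.row_of (C := C) hn h0 h1
  have e := Int.emod_add_mul_ediv y n
  obtain ⟨-, ⟨k1, k2, k3⟩ | ⟨k1, k2, k3⟩⟩ := h
  · refine ⟨(n * C.A (y / n), n * (y / n)), mem_cns.2 (Or.inr (Or.inr ⟨_, _, ⟨hr.1, hr.2.le,
      Or.inl ⟨rfl, hr.2⟩, fun _ _ => by omega⟩, rfl⟩)), rfl, Or.inl ?_⟩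
    simp only; omega
  · refine ⟨(n * C.A (y / n), n * (y / n + 1)), mem_cns.2 (Or.inr (Or.inr ⟨_, _, ⟨by omega, by omega,
      Or.inr ⟨by rw [add_sub_cancel_right], by omega⟩, fun _ _ => by rw [add_sub_cancel_right]; omega⟩,
      rfl⟩)), rfl, Or.inr ?_⟩
    have : n * (y / n + 1) = n * (y / n) + n := by ring
    simp only; omega

/-- bounds for the left ends -/
lemma a_bd (hn : 0 < n) (h0 : 0 ≤ y) (h1 : y < n * C.H) : n * C.LO ≤ n * C.A (y / n) ∧
    n * C.A (y / n) + n ≤ n * C.W := by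
  have hr := CD.row_of (C := C) hn h0 h1
  exact ⟨mul_le_mul_of_nonneg_left (C.lo _ hr.1 hr.2) hn.le, CD.mul_lt hn (C.AW _ hr.1 hr.2)⟩

/-- **The window is the room, off the corners.** -/
theorem pt_rp (hX : |X - x| ≤ 2) (hY : |Y - y| ≤ 1)
    (hf : FarG (C.win n he h8 cr) n C.H C.A x y) : PT (C.win n he h8 cr) X Y ↔ RP C n X Y := by
  have hn : 0 < n := by omega
  rw [abs_le] at hX hY
  change (0 ≤ Y ∧ Y < n * C.H ∧ C.wa n Y ≤ X ∧ X < n * C.W) ↔
    0 ≤ Y ∧ Y < n * C.H ∧ n * C.A (Y / n) ≤ X ∧ X < n * C.W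
  by_cases hr : 0 ≤ Y ∧ Y < n * C.H
  · obtain ⟨h0, h1⟩ := hr
    have hb := a_bd hn h0 h1
    have key : ¬ (C.Nt n Y ∧ X = n * C.A (Y / n) - 1) := by
      rintro ⟨hN, e⟩
      obtain ⟨c, hc, c1, c2⟩ := nt_cns (he := he) (h8 := h8) (cr := cr) hn h0 h1 hN
      refine hf c hc ⟨by omega, ?_⟩
      unfold BX
      rw [CD.win_lo, CD.win_w, CD.win_h]
      omega
    rcases C.wa_cases n Y with ⟨c, e⟩ | ⟨c, e⟩
    · rw [e]
      have : X ≠ n * C.A (Y / n) - 1 := fun h => key ⟨c, h⟩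
      constructor
      · rintro ⟨a1, a2, a3, a4⟩; exact ⟨a1, a2, by omega, a4⟩
      · rintro ⟨a1, a2, a3, a4⟩; exact ⟨a1, a2, by omega, a4⟩
    · rw [e]
  · constructor
    · rintro ⟨a1, a2, -⟩; exact absurd ⟨a1, a2⟩ hr
    · rintro ⟨a1, a2, -⟩; exact absurd ⟨a1, a2⟩ hr

/-- the window without a push -/
theorem epn_rp0 (hf : FarG (C.win n he h8 cr) n C.H C.A x y) :
    EPn (C.win n he h8 cr) ∅ (x + sh p) y ↔ RP C n (x + sh p) y := by
  have s0 := sh_nonneg p
  have s1 := sh_le p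
  rw [← pt_rp (by rw [abs_le]; omega) (by rw [abs_le]; omega) hf]
  unfold EPn
  simp

/-- coordinates of the corners -/
lemma cns_bd (hn : 0 < n) {c : ℤ × ℤ} (hc : c ∈ cns (C.win n he h8 cr) n C.H C.A) :
    (n * C.LO ≤ c.1 ∧ c.1 ≤ n * C.W) ∧ 0 ≤ c.2 ∧ c.2 ≤ n * C.H := by
  have hH := mul_pos hn C.H0
  have h0 := a_bd (C := C) (y := 0) hn le_rfl (by omega)
  rcases mem_cns.1 hc with rfl | rfl | ⟨X, K, ⟨k1, k2, k3, -⟩, rfl⟩
  · simp only [CD.win_w]; omega
  · simp only [CD.win_w, CD.win_h]; omega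
  · have e1 : 0 ≤ n * K := mul_nonneg hn.le k1
    have e2 : n * K ≤ n * C.H := mul_le_mul_of_nonneg_left k2 hn.le
    simp only
    refine ⟨?_, e1, e2⟩
    rcases k3 with ⟨rfl, k4⟩ | ⟨rfl, k4⟩
    · exact ⟨mul_le_mul_of_nonneg_left (C.lo _ k1 k4) hn.le,
        mul_le_mul_of_nonneg_left (C.AW _ k1 k4).le hn.le⟩
    · exact ⟨mul_le_mul_of_nonneg_left (C.lo _ (by omega) (by omega)) hn.le,
        mul_le_mul_of_nonneg_left (C.AW _ (by omega) (by omega)).le hn.le⟩

lemma dx_bd : -1 ≤ dx k ∧ dx k ≤ 1 := by cases k <;> simp [dx]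

lemma dy_bd : -1 ≤ dy k ∧ dy k ≤ 1 := by cases k <;> simp [dy]

/-- **One kind of walls pushed out.** -/
theorem epn_rp (hf : FarG (C.win n he h8 cr) n C.H C.A x y) :
    EPn (C.win n he h8 cr) {k} (x + sh p) y ↔
      RP C n (x + sh p) y ∨ RP C n (x + sh p - dx k) (y - dy k) := by
  have hn : 0 < n := by omega
  have s0 := sh_nonneg p
  have s1 := sh_le p
  have d1 := dx_bd (k := k)
  have d2 := dy_bd (k := k)
  by_cases hr : -3 ≤ y ∧ y < n * C.H + 3 ∧ x < n * C.W + 3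
  · rw [EPn_mink (ofRC (CD.coarseC he h8 cr)) k,
      pt_rp (by rw [abs_le]; omega) (by rw [abs_le]; omega) hf,
      pt_rp (by rw [abs_le]; omega) (by rw [abs_le]; omega) hf]
    intro c hc hcc
    have hb := cns_bd hn hc
    refine hf c hc ⟨by omega, ?_⟩
    unfold BX
    rw [CD.win_lo, CD.win_w, CD.win_h]
    omega
  · refine iff_of_false ?_ ?_
    · rw [EPn_one]
      rintro (h | h)
      · have h1 : 0 ≤ y ∧ y < n * C.H ∧ _ ∧ x + sh p < n * C.W := h
        omega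
      · cases k
        · obtain ⟨k1, k2, k3, -⟩ := h
          rw [CD.win_h] at k2
          have := (C.win n he h8 cr).aw y k1 k2
          rw [CD.win_w] at this
          omega
        · obtain ⟨k1, k2, k3⟩ := h
          rw [CD.win_h] at k2
          rw [CD.win_w] at k3
          omega
        · obtain ⟨k1, k2, k3, k4, -⟩ := h
          rw [CD.win_h] at k2
          rw [CD.win_w] at k4
          omega
        · obtain ⟨k1, k2, k3, k4, -⟩ := h
          rw [CD.win_h] at k2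
          rw [CD.win_w] at k4
          omega
    · rintro (⟨h1, h2, h3, h4⟩ | ⟨h1, h2, h3, h4⟩) <;> omega

/-- **The colours agree off the corners.** -/
theorem natc_fill (hf : FarG (C.win n he h8 cr) n C.H C.A x y) :
    natc (C.win n he h8 cr) p x y = fillC C n cr x y := by
  have hn : 0 < n := by omega
  rw [natc_def]
  unfold fillC
  rw [CD.win_cb, CD.win_ct, CD.win_h, CD.win_a, CD.win_cl, CD.win_cr]
  by_cases h0 : y < 0
  · rw [if_pos h0, if_pos h0]
  rw [if_neg h0, if_neg h0]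
  by_cases h1 : n * C.H ≤ y
  · rw [if_pos h1, if_pos h1]
  rw [if_neg h1, if_neg h1]
  have hb := a_bd (C := C) (y := y) hn (by omega) (by omega)
  rcases C.wa_cases n y with ⟨c, e⟩ | ⟨c, e⟩
  · have hx : x ≠ n * C.A (y / n) - 1 := by
      intro hx
      obtain ⟨c, hc, c1, c2⟩ := nt_cns (he := he) (h8 := h8) (cr := cr) hn (by omega) (by omega) c
      refine hf c hc ⟨by omega, ?_⟩
      unfold BX
      rw [CD.win_lo, CD.win_w, CD.win_h]
      omega
    rw [e]
    by_cases h2 : x < n * C.A (y / n)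
    · rw [if_pos (by omega), if_pos h2]
    · rw [if_neg (by omega), if_neg h2]
  · rw [e]

end Pool.Agent.H27.W.G
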