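import Mathlib
import Pool.Agent.H27.W.NatG
import Pool.Agent.H33.W.NF
import Pool.Agent.H31.W.NatZ
import Pool.Agent.H20.W.SDef

set_option autoImplicit false
open Finset

/-! # Natural windows and the canonical values

`Cmp C n he h8 c0 r p s T` : off the small squares at the corners the region `T` (helper33's `Ef`, `Wf`) is the
natural window of the world `p` with the walls of the kinds `s` pushed out. `cmp_0` : nothing pushed, world `false`;
`cmp_1` : world `true`; `cmp_L`, `cmp_R`, `cmp_F`, `cmp_C` : left walls, right wall, floors, ceilings. -/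

namespace Pool.Agent.H27.W.G

open Pool.Agent.H54.W (Win CD)
open Pool.Agent.H42.Sp (Sd)
open Pool.Agent.H33.Q1 (lt)
open Pool.Agent.H72.W.N (PT LyP natc natc_def sh sh_false sh_true sh_nonneg sh_le InP InB)
open Pool.Agent.H14.W (SQ BX EPn cns mem_cns CorL EPn_mink EPn_one dx dy ofRC CoarseD)
open Pool.Agent.H21.W (RP fillC)
open Pool.Agent.H33.W (Shp shC Ef Wf cF mem_Ef mem_Wf ef_odd wf_odd)
open Pool.Agent.H20.W (crz)

variable {C : CD} {n : ℤ} {he : n % 2 = 0} {h8 : 8 ≤ n} {c0 : Bool} {r : ℤ} {p : Bool}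
  {x y X1 X2 Y1 Y2 : ℤ} {k : Sd} {T : Shp} {s : Finset Sd}

/-! ### Regions -/

lemma shC_a : (shC C n c0 r).a y = if 0 ≤ y ∧ y < n * C.H then n * C.A (y / n) else n * C.W := rfl

lemma shC_B : (shC C n c0 r).B = n * C.W := rfl

lemma shC_in (h : 0 ≤ y ∧ y < n * C.H) : (shC C n c0 r).a y = n * C.A (y / n) := by
  rw [shC_a, if_pos h]

lemma shC_out (h : ¬ (0 ≤ y ∧ y < n * C.H)) : (shC C n c0 r).a y = n * C.W := by
  rw [shC_a, if_neg h]

lemma shC_lt (hn : 0 < n) : (shC C n c0 r).a y < n * C.W ↔ (0 ≤ y ∧ y < n * C.H) := by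
  constructor
  · intro h
    by_contra hc
    rw [shC_out hc] at h
    exact absurd h (lt_irrefl _)
  · intro h
    have := (a_bd (C := C) hn h.1 h.2).2
    rw [shC_in h]
    omega

lemma shC_bd (hn : 0 < n) (h : 0 ≤ y ∧ y < n * C.H) :
    n * C.LO ≤ (shC C n c0 r).a y ∧ (shC C n c0 r).a y + n ≤ n * C.W := by
  rw [shC_in h]
  exact a_bd hn h.1 h.2

lemma reg_S : ((shC C n c0 r).a y ≤ x ∧ x < n * C.W) ↔ RP C n x y := by
  unfold RP
  rw [shC_a]
  by_cases h : 0 ≤ y ∧ y < n * C.H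
  · rw [if_pos h]
    tauto
  · rw [if_neg h]
    constructor
    · rintro ⟨h1, h2⟩; omega
    · rintro ⟨h1, h2, -⟩; exact absurd ⟨h1, h2⟩ h

lemma reg_mv : (((shC C n c0 r).mv (-1)).a y ≤ x ∧ x < ((shC C n c0 r).mv (-1)).B) ↔ RP C n (x + 1) y := by
  rw [← reg_S (c0 := c0) (r := r)]
  change ((shC C n c0 r).a y + -1 ≤ x ∧ x < n * C.W + -1) ↔ _
  omega

lemma reg_ri : ((shC C n c0 r).ri.a y ≤ x ∧ x < (shC C n c0 r).ri.B) ↔ RP C n x y ∨ RP C n x (y + 1) := by
  rw [← reg_S (c0 := c0) (r := r), ← reg_S (c0 := c0) (r := r)]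
  change (min ((shC C n c0 r).a y) ((shC C n c0 r).a (y + 1)) ≤ x ∧ x < n * C.W) ↔ _
  rw [min_le_iff]
  tauto

lemma reg_le : ((shC C n c0 r).le.a y ≤ x ∧ x < (shC C n c0 r).le.B) ↔ RP C n x y ∨ RP C n x (y - 1) := by
  rw [← reg_S (c0 := c0) (r := r), ← reg_S (c0 := c0) (r := r)]
  change (min ((shC C n c0 r).a y) ((shC C n c0 r).a (y - 1)) ≤ x ∧ x < n * C.W) ↔ _
  rw [min_le_iff]
  tauto

lemma reg_fo (hn : 0 < n) : ((shC C n c0 r).fo.a y ≤ x ∧ x < (shC C n c0 r).fo.B) ↔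
    RP C n x y ∨ RP C n (x + 1) y := by
  rw [← reg_S (c0 := c0) (r := r), ← reg_S (c0 := c0) (r := r)]
  change ((if (shC C n c0 r).a y < n * C.W then (shC C n c0 r).a y - 1 else (shC C n c0 r).a y) ≤ x ∧
    x < n * C.W) ↔ _
  have h := shC_lt (C := C) (c0 := c0) (r := r) (y := y) hn
  by_cases h1 : (shC C n c0 r).a y < n * C.W
  · have := (shC_bd (c0 := c0) (r := r) hn (h.1 h1)).2
    rw [if_pos h1]
    omega
  · rw [if_neg h1]
    omega

/-! ### Colours -/

/-- colours to the left -/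
lemma fill_l (h : x < (shC C n c0 r).a y ∨ ¬ (0 ≤ y ∧ y < n * C.H)) :
    fillC C n (crz c0 r) x y = (shC C n c0 r).l y := by
  change (if y < 0 then C.CB else if n * C.H ≤ y then C.CT
    else if x < n * C.A (y / n) then C.CL (y / n) else crz c0 r y) =
    if y < 0 then C.CB else if n * C.H ≤ y then C.CT else C.CL (y / n)
  by_cases h1 : y < 0
  · rw [if_pos h1, if_pos h1]
  by_cases h2 : n * C.H ≤ y
  · rw [if_neg h1, if_neg h1, if_pos h2, if_pos h2]
  rw [if_neg h1, if_neg h1, if_neg h2, if_neg h2]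
  rcases h with h | h
  · rw [shC_in (by omega)] at h
    rw [if_pos h]
  · omega

/-- colours to the right -/
lemma fill_r (h : (shC C n c0 r).a y ≤ x ∨ ¬ (0 ≤ y ∧ y < n * C.H)) :
    fillC C n (crz c0 r) x y = (shC C n c0 r).rc y := by
  change (if y < 0 then C.CB else if n * C.H ≤ y then C.CT
    else if x < n * C.A (y / n) then C.CL (y / n) else (if y < r then c0 else !c0)) =
    if y < 0 then C.CB else if n * C.H ≤ y then C.CT else if y < r then c0 else !c0
  by_cases h1 : y < 0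
  · rw [if_pos h1, if_pos h1]
  by_cases h2 : n * C.H ≤ y
  · rw [if_neg h1, if_neg h1, if_pos h2, if_pos h2]
  rw [if_neg h1, if_neg h1, if_neg h2, if_neg h2]
  rcases h with h | h
  · rw [shC_in (by omega)] at h
    rw [if_neg (by omega)]
  · omega

/-- a floor -/
lemma drop_cns (hn : 0 < n) (h : (shC C n c0 r).a (y + 1) < (shC C n c0 r).a y) :
    ∃ c ∈ cns (C.win n he h8 (crz c0 r)) n C.H C.A, c.1 = (shC C n c0 r).a (y + 1) ∧ c.2 = y + 1 ∧
      -1 ≤ y ∧ y + 1 < n * C.H := by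
  have hB : (shC C n c0 r).a y ≤ n * C.W := by
    by_cases hy : 0 ≤ y ∧ y < n * C.H
    · have := (shC_bd (c0 := c0) (r := r) hn hy).2
      omega
    · rw [shC_out hy]
  have h1 := (shC_lt (C := C) (c0 := c0) (r := r) (y := y + 1) hn).1 (by omega)
  rw [shC_in h1] at h ⊢
  by_cases hy : 0 ≤ y ∧ y < n * C.H
  · rw [shC_in hy] at h
    rcases CD.div_succ hn y with ⟨k1, k2, k3⟩ | ⟨k1, k2, k3⟩
    · rw [k2] at h; exact absurd h (lt_irrefl _)
    · have hr := CD.row_of (C := C) hn h1.1 h1.2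
      have hr' := CD.row_of (C := C) hn hy.1 hy.2
      have e := Int.emod_add_mul_ediv (y + 1) n
      refine ⟨(n * C.A ((y + 1) / n), n * ((y + 1) / n)), mem_cns.2 (Or.inr (Or.inr ⟨_, _,
        ⟨hr.1, hr.2.le, Or.inl ⟨rfl, hr.2⟩, fun _ _ => ?_⟩, rfl⟩)), rfl, ?_, by omega, h1.2⟩
      · rw [k2, add_sub_cancel_right]
        rw [k2] at h
        intro hc
        rw [hc] at h
        exact absurd h (lt_irrefl _)
      · simp only; omega
  · have e : y + 1 = 0 := by omega
    rw [e, Int.zero_ediv]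
    refine ⟨(n * C.A 0, n * 0), mem_cns.2 (Or.inr (Or.inr ⟨_, _, ⟨le_rfl, C.H0.le, Or.inl ⟨rfl, C.H0⟩,
      fun h => absurd h (lt_irrefl _)⟩, rfl⟩)), rfl, ?_, by omega, by omega⟩
    simp only; omega

/-- a ceiling -/
lemma rise_cns (hn : 0 < n) (h : (shC C n c0 r).a (y - 1) < (shC C n c0 r).a y) :
    ∃ c ∈ cns (C.win n he h8 (crz c0 r)) n C.H C.A, c.1 = (shC C n c0 r).a (y - 1) ∧ c.2 = y ∧
      0 < y ∧ y ≤ n * C.H := by
  have hB : (shC C n c0 r).a y ≤ n * C.W := by
    by_cases hy : 0 ≤ y ∧ y < n * C.H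
    · have := (shC_bd (c0 := c0) (r := r) hn hy).2
      omega
    · rw [shC_out hy]
  have h1 := (shC_lt (C := C) (c0 := c0) (r := r) (y := y - 1) hn).1 (by omega)
  rw [shC_in h1] at h ⊢
  have hr' := CD.row_of (C := C) hn h1.1 h1.2
  have e := Int.emod_add_mul_ediv (y - 1) n
  have hm := Int.emod_lt_of_pos (y - 1) hn
  have hm0 := Int.emod_nonneg (y - 1) hn.ne'
  have e2 : n * ((y - 1) / n + 1) = n * ((y - 1) / n) + n := by ring
  by_cases hy : 0 ≤ y ∧ y < n * C.H
  · rw [shC_in hy] at h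
    rcases CD.div_succ hn (y - 1) with ⟨k1, k2, k3⟩ | ⟨k1, k2, k3⟩
    · rw [sub_add_cancel] at k2
      rw [k2] at h; exact absurd h (lt_irrefl _)
    · rw [sub_add_cancel] at k2 k3
      have hr := CD.row_of (C := C) hn hy.1 hy.2
      refine ⟨(n * C.A ((y - 1) / n), n * ((y - 1) / n + 1)), mem_cns.2 (Or.inr (Or.inr ⟨_, _,
        ⟨by omega, by omega, Or.inr ⟨by rw [add_sub_cancel_right], by omega⟩, fun _ _ => ?_⟩, rfl⟩)),
        rfl, ?_, by omega, by omega⟩
      · rw [add_sub_cancel_right]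
        rw [k2] at h
        intro hc
        rw [hc] at h
        exact absurd h (lt_irrefl _)
      · simp only; omega
  · have e3 : y = n * C.H := by omega
    have e4 : (y - 1) / n = C.H - 1 := by
      have e5 : y - 1 = (n - 1) + n * (C.H - 1) := by rw [e3]; ring
      rw [e5, Int.add_mul_ediv_left _ _ hn.ne', Int.ediv_eq_zero_of_lt (by omega) (by omega), zero_add]
    have H0 := C.H0
    rw [e4]
    refine ⟨(n * C.A (C.H - 1), n * C.H), mem_cns.2 (Or.inr (Or.inr ⟨_, _, ⟨C.H0.le, le_rfl,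
      Or.inr ⟨rfl, C.H0⟩, fun _ h => absurd h (lt_irrefl _)⟩, rfl⟩)), rfl, ?_, by omega, by omega⟩
    simp only; omega

lemma se_cns : ((n * C.W, 0) : ℤ × ℤ) ∈ cns (C.win n he h8 (crz c0 r)) n C.H C.A :=
  mem_cns.2 (Or.inl (by rw [CD.win_w]))

lemma ne_cns : ((n * C.W, n * C.H) : ℤ × ℤ) ∈ cns (C.win n he h8 (crz c0 r)) n C.H C.A :=
  mem_cns.2 (Or.inr (Or.inl (by rw [CD.win_w, CD.win_h])))

/-- the shapes without bent colours -/
lemma cF_flat (hn : 0 < n) (hl : T.l = (shC C n c0 r).l) (hr : T.rc = (shC C n c0 r).rc)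
    (h1 : x < T.a y → x < (shC C n c0 r).a y ∨ ¬ (0 ≤ y ∧ y < n * C.H))
    (h2 : T.a y ≤ x → (shC C n c0 r).a y ≤ x ∨ ¬ (0 ≤ y ∧ y < n * C.H)) :
    cF (shC C n c0 r) T x y = fillC C n (crz c0 r) x y := by
  unfold cF
  rw [hl, hr, ite_self, ite_self]
  by_cases h : x < T.a y
  · rw [if_pos h, fill_l (h1 h)]
  · rw [if_neg h, fill_r (h2 (by omega))]

/-- floors pushed out -/
lemma cF_ri (hn : 0 < n) (hf : FarG (C.win n he h8 (crz c0 r)) n C.H C.A x y)
    (ho : ¬ ((shC C n c0 r).ri.a y ≤ x ∧ x < (shC C n c0 r).ri.B)) :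
    cF (shC C n c0 r) (shC C n c0 r).ri x y = fillC C n (crz c0 r) x y := by
  change ¬ (min ((shC C n c0 r).a y) ((shC C n c0 r).a (y + 1)) ≤ x ∧ x < n * C.W) at ho
  change (if x < min ((shC C n c0 r).a y) ((shC C n c0 r).a (y + 1)) then
      (if min ((shC C n c0 r).a y) ((shC C n c0 r).a (y + 1)) - 2 ≤ x then
        (if (shC C n c0 r).a (y + 1) < (shC C n c0 r).a y then (shC C n c0 r).l (y + 1)
          else (shC C n c0 r).l y) else (shC C n c0 r).l y)
    else (if x < n * C.W + 2 then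
        (if (shC C n c0 r).a y = n * C.W ∧ (shC C n c0 r).a (y + 1) < n * C.W then
          (shC C n c0 r).rc (y + 1) else (shC C n c0 r).rc y) else (shC C n c0 r).rc y)) = _
  by_cases h : x < min ((shC C n c0 r).a y) ((shC C n c0 r).a (y + 1))
  · rw [if_pos h]
    rw [lt_min_iff] at h
    rw [fill_l (Or.inl h.1)]
    split_ifs with h1 h2
    · exfalso
      rw [min_eq_right h2.le] at h1
      obtain ⟨c, hc, e1, e2, e3, e4⟩ := drop_cns (he := he) (h8 := h8) hn h2
      have hb := cns_bd hn hc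
      refine hf c hc ⟨by omega, ?_⟩
      unfold BX
      rw [CD.win_lo, CD.win_w, CD.win_h]
      omega
    · rfl
    · rfl
  · rw [if_neg h]
    have hx : n * C.W ≤ x := by
      by_contra hc
      exact ho ⟨not_lt.1 h, not_le.1 hc⟩
    have hB : (shC C n c0 r).a y ≤ n * C.W := by
      by_cases hy : 0 ≤ y ∧ y < n * C.H
      · have := (shC_bd (c0 := c0) (r := r) hn hy).2
        omega
      · rw [shC_out hy]
    rw [fill_r (Or.inl (hB.trans hx))]
    split_ifs with h1 h2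
    · exfalso
      have k1 := (shC_lt (C := C) (c0 := c0) (r := r) (y := y) hn).not.1 (by omega)
      have k2 := (shC_lt (C := C) (c0 := c0) (r := r) (y := y + 1) hn).1 h2.2
      refine hf _ se_cns ⟨by simp only; omega, ?_⟩
      unfold BX
      rw [CD.win_lo, CD.win_w, CD.win_h]
      have := mul_le_mul_of_nonneg_left (C.lo 0 le_rfl C.H0) hn.le
      have := mul_le_mul_of_nonneg_left (C.AW 0 le_rfl C.H0).le hn.le
      omega
    · rfl
    · rfl

/-- ceilings pushed out -/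
lemma cF_le (hn : 0 < n) (hf : FarG (C.win n he h8 (crz c0 r)) n C.H C.A x y)
    (ho : ¬ ((shC C n c0 r).le.a y ≤ x ∧ x < (shC C n c0 r).le.B)) :
    cF (shC C n c0 r) (shC C n c0 r).le x y = fillC C n (crz c0 r) x y := by
  change ¬ (min ((shC C n c0 r).a y) ((shC C n c0 r).a (y - 1)) ≤ x ∧ x < n * C.W) at ho
  change (if x < min ((shC C n c0 r).a y) ((shC C n c0 r).a (y - 1)) then
      (if min ((shC C n c0 r).a y) ((shC C n c0 r).a (y - 1)) - 2 ≤ x then
        (if (shC C n c0 r).a (y - 1) < (shC C n c0 r).a y then (shC C n c0 r).l (y - 1)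
          else (shC C n c0 r).l y) else (shC C n c0 r).l y)
    else (if x < n * C.W + 2 then
        (if (shC C n c0 r).a y = n * C.W ∧ (shC C n c0 r).a (y - 1) < n * C.W then
          (shC C n c0 r).rc (y - 1) else (shC C n c0 r).rc y) else (shC C n c0 r).rc y)) = _
  by_cases h : x < min ((shC C n c0 r).a y) ((shC C n c0 r).a (y - 1))
  · rw [if_pos h]
    rw [lt_min_iff] at h
    rw [fill_l (Or.inl h.1)]
    split_ifs with h1 h2
    · exfalso
      rw [min_eq_right h2.le] at h1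
      obtain ⟨c, hc, e1, e2, e3, e4⟩ := rise_cns (he := he) (h8 := h8) hn h2
      have hb := cns_bd hn hc
      refine hf c hc ⟨by omega, ?_⟩
      unfold BX
      rw [CD.win_lo, CD.win_w, CD.win_h]
      omega
    · rfl
    · rfl
  · rw [if_neg h]
    have hx : n * C.W ≤ x := by
      by_contra hc
      exact ho ⟨not_lt.1 h, not_le.1 hc⟩
    have hB : (shC C n c0 r).a y ≤ n * C.W := by
      by_cases hy : 0 ≤ y ∧ y < n * C.H
      · have := (shC_bd (c0 := c0) (r := r) hn hy).2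
        omega
      · rw [shC_out hy]
    rw [fill_r (Or.inl (hB.trans hx))]
    split_ifs with h1 h2
    · exfalso
      have k1 := (shC_lt (C := C) (c0 := c0) (r := r) (y := y) hn).not.1 (by omega)
      have k2 := (shC_lt (C := C) (c0 := c0) (r := r) (y := y - 1) hn).1 h2.2
      refine hf _ ne_cns ⟨by simp only; omega, ?_⟩
      unfold BX
      rw [CD.win_lo, CD.win_w, CD.win_h]
      have := mul_le_mul_of_nonneg_left (C.lo 0 le_rfl C.H0) hn.le
      have := mul_le_mul_of_nonneg_left (C.AW 0 le_rfl C.H0).le hn.le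
      omega
    · rfl
    · rfl

/-! ### The comparison -/

/-- off the corners the region `T` is the natural window of the world `p`, the walls of the kinds `s` pushed out -/
structure Cmp (C : CD) (n : ℤ) (he : n % 2 = 0) (h8 : 8 ≤ n) (c0 : Bool) (r : ℤ) (p : Bool) (s : Finset Sd)
    (T : Shp) : Prop where
  E : ∀ x y, FarG (C.win n he h8 (crz c0 r)) n C.H C.A x y →
    ((T.a y ≤ x ∧ x < T.B) ↔ EPn (C.win n he h8 (crz c0 r)) s (x + sh p) y)
  W : ∀ x y, FarG (C.win n he h8 (crz c0 r)) n C.H C.A x y → ¬ (T.a y ≤ x ∧ x < T.B) →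
    cF (shC C n c0 r) T x y = natc (C.win n he h8 (crz c0 r)) p x y

theorem cmp_0 : Cmp C n he h8 c0 r false ∅ (shC C n c0 r) where
  E x y hf := by rw [shC_B, reg_S, epn_rp0 hf, sh_false, add_zero]
  W x y hf ho := by
    rw [natc_fill hf]
    exact cF_flat (by omega) rfl rfl Or.inl Or.inl

theorem cmp_1 : Cmp C n he h8 c0 r true ∅ ((shC C n c0 r).mv (-1)) where
  E x y hf := by rw [reg_mv, epn_rp0 hf, sh_true]
  W x y hf ho := by
    rw [natc_fill hf]
    change ¬ ((shC C n c0 r).a y + -1 ≤ x ∧ x < n * C.W + -1) at ho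
    refine cF_flat (by omega) rfl rfl (fun h => ?_) (fun h => ?_)
    · change x < (shC C n c0 r).a y + -1 at h
      left; omega
    · change (shC C n c0 r).a y + -1 ≤ x at h
      by_cases hy : 0 ≤ y ∧ y < n * C.H
      · have := (shC_bd (c0 := c0) (r := r) (show 0 < n by omega) hy).2
        left; omega
      · exact Or.inr hy

theorem cmp_L : Cmp C n he h8 c0 r false {Sd.L} (shC C n c0 r).fo where
  E x y hf := by
    rw [reg_fo (by omega), epn_rp hf, sh_false]
    simp only [dx, dy, add_zero, sub_zero, sub_neg_eq_add]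
  W x y hf ho := by
    rw [natc_fill hf]
    change ¬ ((if (shC C n c0 r).a y < n * C.W then (shC C n c0 r).a y - 1 else (shC C n c0 r).a y) ≤ x ∧
      x < n * C.W) at ho
    refine cF_flat (by omega) rfl rfl (fun h => ?_) (fun h => ?_)
    · change x < (if (shC C n c0 r).a y < n * C.W then (shC C n c0 r).a y - 1 else (shC C n c0 r).a y) at h
      left
      split_ifs at h <;> omega
    · change (if (shC C n c0 r).a y < n * C.W then (shC C n c0 r).a y - 1 else (shC C n c0 r).a y) ≤ x at h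
      by_cases hy : 0 ≤ y ∧ y < n * C.H
      · have := (shC_bd (c0 := c0) (r := r) (show 0 < n by omega) hy).2
        left
        split_ifs at h ho <;> omega
      · exact Or.inr hy

theorem cmp_R : Cmp C n he h8 c0 r true {Sd.R} ((shC C n c0 r).mv (-1)).ce where
  E x y hf := by
    rw [← Pool.Agent.H33.W.nf_s1, reg_fo (by omega), epn_rp hf, sh_true]
    simp only [dx, dy, sub_zero, add_sub_cancel_right]
    exact or_comm
  W x y hf ho := by
    rw [← Pool.Agent.H33.W.nf_s1] at ho ⊢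
    exact (cmp_L (he := he) (h8 := h8)).W x y hf ho

theorem cmp_F : Cmp C n he h8 c0 r false {Sd.F} (shC C n c0 r).ri where
  E x y hf := by
    rw [reg_ri, epn_rp hf, sh_false]
    simp only [dx, dy, add_zero, sub_zero, sub_neg_eq_add]
  W x y hf ho := by rw [natc_fill hf]; exact cF_ri (by omega) hf ho

theorem cmp_C : Cmp C n he h8 c0 r false {Sd.C} (shC C n c0 r).le where
  E x y hf := by
    rw [reg_le, epn_rp hf, sh_false]
    simp only [dx, dy, add_zero, sub_zero]
  W x y hf ho := by rw [natc_fill hf]; exact cF_le (by omega) hf ho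

/-- random and open labels are disjoint -/
lemma ef_wf {S : Shp} : Disjoint (Ef T X1 X2 Y1 Y2) (Wf S T X1 X2 Y1 Y2) := by
  rw [disjoint_left]
  intro e he he'
  obtain ⟨x, y, rfl⟩ := Pool.Agent.H74.R45.exists_lt (ef_odd he)
  exact (mem_Wf.1 he').2.1 (mem_Ef.1 he).2

/-- **The hypothesis of `nz_cmp`.** -/
theorem Cmp.agree (K : Cmp C n he h8 c0 r p s T) (hb : X1 ≤ x ∧ x < X2 ∧ Y1 ≤ y ∧ y < Y2)
    (hf : FarG (C.win n he h8 (crz c0 r)) n C.H C.A x y) :
    (lt (x, y) ∈ Ef T X1 X2 Y1 Y2 ↔ EPn (C.win n he h8 (crz c0 r)) s (x + sh p) y) ∧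
    (lt (x, y) ∈ Wf (shC C n c0 r) T X1 X2 Y1 Y2 ↔
      ¬ EPn (C.win n he h8 (crz c0 r)) s (x + sh p) y ∧
        natc (C.win n he h8 (crz c0 r)) p x y = true) := by
  have h1 := K.E x y hf
  have h2 := K.W x y hf
  rw [mem_Ef, mem_Wf, ← h1]
  refine ⟨⟨fun h => h.2, fun h => ⟨hb, h⟩⟩, ?_⟩
  constructor
  · rintro ⟨-, h3, h4⟩
    exact ⟨h3, by rw [← h2 h3]; exact h4⟩
  · rintro ⟨h3, h4⟩
    exact ⟨hb, h3, by rw [h2 h3]; exact h4⟩

end Pool.Agent.H27.W.G
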